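import Mathlib
import Pool.Agent.Helper292.SP.Lib

set_option autoImplicit false

open Cardinal Set

namespace Pool.Agent.H631R2

open Pool.Agent.Helper292.SP

/-! ### Finite partial functions -/

/-- The conditions: finite partial functions from `I` to `Bool`. -/
structure Cond (I : Type) where
  s : Finset (I × Bool)
  fn : ∀ i, (i, true) ∈ s → (i, false) ∉ s

namespace Cond

variable {I : Type}

instance : Preorder (Cond I) where
  le q p := p.s ⊆ q.s
  le_refl p := Finset.Subset.refl _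
  le_trans _ _ _ h h' := Finset.Subset.trans h' h

theorem le_def {p q : Cond I} : q ≤ p ↔ p.s ⊆ q.s := Iff.rfl

/-- The domain. -/
def dom (p : Cond I) : Set I := Prod.fst '' (p.s : Set (I × Bool))

theorem dom_finite (p : Cond I) : p.dom.Finite := (Finset.finite_toSet p.s).image _

theorem mem_dom {p : Cond I} {i : I} : i ∈ p.dom ↔ ∃ b, (i, b) ∈ p.s := by
  constructor
  · rintro ⟨⟨j, b⟩, h, rfl⟩
    exact ⟨b, h⟩
  · rintro ⟨b, h⟩
    exact ⟨(i, b), h, rfl⟩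

theorem dom_mono {p q : Cond I} (h : q ≤ p) : p.dom ⊆ q.dom := by
  intro i hi
  obtain ⟨b, hb⟩ := mem_dom.mp hi
  exact mem_dom.mpr ⟨b, h hb⟩

theorem unique {p : Cond I} {i : I} {b c : Bool} (h : (i, b) ∈ p.s) (h' : (i, c) ∈ p.s) : b = c := by
  cases b <;> cases c
  · rfl
  · exact absurd h (p.fn i h')
  · exact absurd h' (p.fn i h)
  · rfl

/-- Agreement of two conditions. -/
def Agree (p q : Cond I) : Prop := ∀ i b c, (i, b) ∈ p.s → (i, c) ∈ q.s → b = c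

theorem Agree.symm {p q : Cond I} (h : Agree p q) : Agree q p := fun i b c h1 h2 => (h i c b h2 h1).symm

theorem Agree.refl (p : Cond I) : Agree p p := fun _ _ _ => unique

theorem agree_of_le {p q r : Cond I} (h : r ≤ p) (h' : r ≤ q) : Agree p q :=
  fun _ _ _ h1 h2 => unique (h h1) (h' h2)

open Classical in
/-- The union of finitely many pairwise agreeing conditions. -/
theorem exists_union {ι : Type} (S : Finset ι) (q : ι → Cond I)
    (hS : ∀ i ∈ S, ∀ j ∈ S, Agree (q i) (q j)) :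
    ∃ r : Cond I, (∀ i ∈ S, r ≤ q i) ∧ ∀ x ∈ r.s, ∃ i ∈ S, x ∈ (q i).s := by
  refine ⟨⟨S.biUnion fun i => (q i).s, ?_⟩, ?_, ?_⟩
  · intro i h1 h2
    rw [Finset.mem_biUnion] at h1 h2
    obtain ⟨a, ha, h1⟩ := h1
    obtain ⟨b, hb, h2⟩ := h2
    exact absurd (hS a ha b hb i true false h1 h2) (by simp)
  · intro i hi x hx
    exact Finset.mem_biUnion.mpr ⟨i, hi, hx⟩
  · intro x hx
    exact Finset.mem_biUnion.mp hx

theorem exists_lb {p q : Cond I} (h : Agree p q) : ∃ r, r ≤ p ∧ r ≤ q := by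
  obtain ⟨r, hr, _⟩ := exists_union (Finset.univ : Finset Bool) (fun b => if b then p else q) (by
    intro i _ j _
    cases i <;> cases j <;> simp only [Bool.false_eq_true, if_true, if_false]
    · exact Agree.refl q
    · exact h.symm
    · exact h
    · exact Agree.refl p)
  exact ⟨r, by simpa using hr true (Finset.mem_univ _), by simpa using hr false (Finset.mem_univ _)⟩

open Classical in
/-- One more value. -/
theorem exists_ext (p : Cond I) {i : I} (hi : i ∉ p.dom) (b : Bool) :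
    ∃ r ≤ p, (i, b) ∈ r.s ∧ ∀ x ∈ r.s, x = (i, b) ∨ x ∈ p.s := by
  refine ⟨⟨insert (i, b) p.s, ?_⟩, ?_, ?_, ?_⟩
  · intro j h1 h2
    rw [Finset.mem_insert, Prod.mk.injEq] at h1 h2
    rcases h1 with ⟨h1, h3⟩ | h1 <;> rcases h2 with ⟨h2, h4⟩ | h2
    · rw [← h3] at h4; exact absurd h4 (by simp)
    · exact hi (mem_dom.mpr ⟨_, h1 ▸ h2⟩)
    · exact hi (mem_dom.mpr ⟨_, h2 ▸ h1⟩)
    · exact p.fn j h1 h2
  · exact Finset.subset_insert _ _
  · exact Finset.mem_insert_self _ _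
  · intro x hx
    exact Finset.mem_insert.mp hx

open Classical in
/-- The delta system lemma for conditions. -/
theorem delta {E : Type} {χ : Cardinal.{0}} (hχ : ℵ₀ ≤ χ) (T : Set E) (hT : ¬ #T ≤ χ)
    (q : E → Cond I) :
    ∃ (T' : Set E) (r : Cond I), T' ⊆ T ∧ (¬ #T' ≤ χ) ∧ (∀ e ∈ T', q e ≤ r) ∧
      ∀ e ∈ T', ∀ e' ∈ T', e ≠ e' → (q e).dom ∩ (q e').dom = r.dom := by
  obtain ⟨T1, R, hT1, hT1c, hR⟩ := delta_sys (σ := ℵ₀) hχ hχ (by
    intro τ hτ
    obtain ⟨n, rfl⟩ := Cardinal.lt_aleph0.mp hτ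
    exact Cardinal.power_nat_le hχ) T hT (fun e => (q e).dom) (fun e => (q e).dom_finite.lt_aleph0)
  have two : ∀ (T2 : Set E), (¬ #T2 ≤ χ) → ∃ e ∈ T2, ∃ e' ∈ T2, e ≠ e' := by
    intro T2 hT2
    have h1 : 1 < #T2 := (Cardinal.one_lt_aleph0.trans_le hχ).trans (not_le.mp hT2)
    obtain ⟨⟨e, he⟩, ⟨e', he'⟩, hne⟩ := Cardinal.one_lt_iff_nontrivial.mp h1
    exact ⟨e, he, e', he', fun h => hne (Subtype.ext h)⟩
  have hRfin : R.Finite := by
    obtain ⟨e, he, e', he', hne⟩ := two T1 hT1c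
    rw [← hR e he e' he' hne]
    exact (q e).dom_finite.subset inter_subset_left
  have hRsub : ∀ e ∈ T1, R ⊆ (q e).dom := by
    intro e he
    obtain ⟨a, ha, b, hb, hne⟩ := two T1 hT1c
    by_cases h : e = a
    · subst h; rw [← hR e he b hb hne]; exact inter_subset_left
    · rw [← hR e he a ha h]; exact inter_subset_left
  have hfin : {Z : Set (I × Bool) | Z ⊆ R ×ˢ (univ : Set Bool)}.Finite :=
    (hRfin.prod finite_univ).finite_subsets
  obtain ⟨T2, z, hT2, hT2c, hz⟩ := pigeon hχ T1 hT1c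
    (fun e => (⟨{x | x ∈ (q e).s ∧ x.1 ∈ R}, fun x hx => ⟨hx.2, mem_univ _⟩⟩ :
      {Z : Set (I × Bool) | Z ⊆ R ×ˢ (univ : Set Bool)})) (hfin.lt_aleph0.le.trans hχ)
  obtain ⟨e0, he0, -⟩ := two T2 hT2c
  have hz0 : ∀ e ∈ T2, ∀ x, (x ∈ (q e).s ∧ x.1 ∈ R) ↔ (x ∈ (q e0).s ∧ x.1 ∈ R) := by
    intro e he x
    have h1 := (hz e he).trans (hz e0 he0).symm
    have h2 := congrArg Subtype.val h1
    exact Set.ext_iff.mp h2 x
  refine ⟨T2, ⟨(q e0).s.filter fun x => x.1 ∈ R, ?_⟩, hT2.trans hT1, hT2c, ?_, ?_⟩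
  · intro i h1 h2
    exact (q e0).fn i (Finset.mem_filter.mp h1).1 (Finset.mem_filter.mp h2).1
  · intro e he x hx
    exact ((hz0 e he x).mpr (Finset.mem_filter.mp hx)).1
  · intro e he e' he' hne
    rw [hR e (hT2 he) e' (hT2 he') hne]
    ext i
    constructor
    · intro hi
      obtain ⟨b, hb⟩ := mem_dom.mp (hRsub e0 (hT2 he0) hi)
      exact mem_dom.mpr ⟨b, Finset.mem_filter.mpr ⟨hb, hi⟩⟩
    · intro hi
      obtain ⟨b, hb⟩ := mem_dom.mp hi
      exact (Finset.mem_filter.mp hb).2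

/-- Two members of a delta system agree. -/
theorem agree_of_root {p q r : Cond I} (hp : p ≤ r) (hq : q ≤ r) (h : p.dom ∩ q.dom ⊆ r.dom) :
    Agree p q := by
  intro i b c hb hc
  obtain ⟨a, ha⟩ := mem_dom.mp (h ⟨mem_dom.mpr ⟨b, hb⟩, mem_dom.mpr ⟨c, hc⟩⟩)
  rw [unique hb (hp ha), unique hc (hq ha)]

/-- The countable chain condition. -/
theorem ccc (W : Set (Cond I)) (hW : ∀ p ∈ W, ∀ q ∈ W, p ≠ q → ¬ ∃ r, r ≤ p ∧ r ≤ q) :
    #W ≤ ℵ₀ := by
  by_contra hcon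
  obtain ⟨T', r, hT', hc, hr, hd⟩ := delta le_rfl W hcon (fun p => p)
  have h1 : 1 < #T' := (Cardinal.one_lt_aleph0).trans (not_le.mp hc)
  obtain ⟨⟨e, he⟩, ⟨e', he'⟩, hne⟩ := Cardinal.one_lt_iff_nontrivial.mp h1
  have hne' : e ≠ e' := fun h => hne (Subtype.ext h)
  exact hW e (hT' he) e' (hT' he') hne'
    (exists_lb (agree_of_root (hr e he) (hr e' he') (hd e he e' he' hne').subset))

end Cond

end Pool.Agent.H631R2
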