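import Mathlib
import Pool.Agent.Helper292.SP.Lang

set_option autoImplicit false

open Cardinal Set

namespace Pool.Agent.H631R2

open Pool.Agent.Helper292.SP

/-! ### Sentences of the forcing language

A sentence is the set of the conditions which force it (see `Pool.Agent.Helper292.SP.Lang` for the
connectives and quantifiers). A name for a subset of a ground model set `A` is a map
`x : A → Set P`: the element `a` is in the set named by `x` iff the generic filter meets `x a`. -/

variable {P : Type} [Preorder P]

/-- The function named by `F` is onto `Y`. -/
def IsOnto {X Y : Type} (F : X → Y → Set P) : Set P :=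
  fall fun y : Y => fex fun x : X => meets (F x y)

/-- The function named by `F` is one-to-one. -/
def IsInj {X Y : Type} (F : X → Y → Set P) : Set P :=
  fall fun x : X => fall fun x' : X => fall fun y : Y =>
    fimp (fand (meets (F x y)) (meets (F x' y))) (fground (x = x'))

/-- In the extension there is no function from `X` onto `Y`. -/
def NoOnto (P : Type) [Preorder P] (X Y : Type) : Set P :=
  fnot (fex fun F : X → Y → Set P => fand (IsFun F) (IsOnto F))

/-- In the extension `2 ^ |A| ≤ |B|`: some family indexed by `B` contains all subsets of `A`. -/
def PowLE (P : Type) [Preorder P] (A B : Type) : Set P :=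
  fex fun E : B → A → Set P => fall fun x : A → Set P => fex fun b : B => fall fun a : A =>
    fiff (meets (x a)) (meets (E b a))

/-- In the extension the order type of `B` is the cardinal `2 ^ |A|`: `2 ^ |A| ≤ |B|`, and
`2 ^ |A| ≤ |S|` for no proper initial segment `S` of `B`. -/
def IsPow (P : Type) [Preorder P] (A B : Type) [LinearOrder B] : Set P :=
  fand (PowLE P A B) (fall fun b : B => fnot (PowLE P A (Iio b)))

/-- In the extension the order type of `L` is the cardinal `sup {2 ^ |N n| : n < ω}`:
`2 ^ |N n| ≤ |L|` for all `n`, and for every proper initial segment `S` of `L` there is `n` such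
that not `2 ^ |N n| ≤ |S|`. -/
def IsSupPow (P : Type) [Preorder P] (N : ℕ → Type) (L : Type) [LinearOrder L] : Set P :=
  fand (fall fun n : ℕ => PowLE P (N n) L)
    (fall fun a : L => fex fun n : ℕ => fnot (PowLE P (N n) (Iio a)))

/-- In the extension `|K| < 2 ^ |N n|` for some `n`. -/
def HypOne (P : Type) [Preorder P] (N : ℕ → Type) (K : Type) : Set P :=
  fex fun n : ℕ => fnot (PowLE P (N n) K)

/-- In the extension for every `n` there are a proper initial segment `S` of `L` and a proper
initial segment `T` of `Λ` with `2 ^ |N n| ≤ |S|` and `2 ^ |S| ≤ |T|`. -/
def HypTwo (P : Type) [Preorder P] (N : ℕ → Type) (L Λ : Type) [LinearOrder L] [LinearOrder Λ] :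
    Set P :=
  fall fun n : ℕ => fex fun a : L => fex fun b : Λ =>
    fand (PowLE P (N n) (Iio a)) (PowLE P (Iio a) (Iio b))

/-- In the extension `|Λ| ↛ (|K|, m)ʳ`: there is a colouring of the finite subsets of `Λ` with the
colours `0` and `1` (the sets in `c` have the colour `1`) such that the range of every one-to-one
function from `K` to `Λ` has an `r`-element subset of the colour `1`, and every `m`-element subset
of `Λ` has an `r`-element subset of the colour `0`. -/
def NArrow (P : Type) [Preorder P] (Λ K : Type) (m r : ℕ) : Set P :=
  fex fun c : Finset Λ → Set P => fand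
    (fall fun J : K → Λ → Set P => fimp (fand (IsFun J) (IsInj J))
      (fex fun t : Finset Λ => fand (fground (t.card = r))
        (fand (fall fun x : t => fex fun k : K => meets (J k x)) (meets (c t)))))
    (fall fun s : Finset Λ => fimp (fground (s.card = m))
      (fex fun t : Finset Λ => fand (fground (t ⊆ s ∧ t.card = r)) (fnot (meets (c t)))))

end Pool.Agent.H631R2
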