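import Mathlib
import Pool.Agent.H631R2.Cohen
import Pool.Agent.H631R2.FLang

set_option autoImplicit false

open Cardinal Set

namespace Pool.Agent.H631R2

open Pool.Agent.Helper292.SP

variable {P : Type} [Preorder P]

/-- The countable chain condition. -/
def CCC (P : Type) [Preorder P] : Prop :=
  ∀ W : Set P, (∀ p ∈ W, ∀ q ∈ W, p ≠ q → ¬ ∃ r, r ≤ p ∧ r ≤ q) → #W ≤ ℵ₀

theorem mk_le_of_fibres {X C : Type} (f : X → C) (hf : ∀ c, #(f ⁻¹' {c}) ≤ ℵ₀) :
    #X ≤ #C * ℵ₀ := by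
  have h1 : (univ : Set X) = ⋃ c : C, f ⁻¹' {c} := by
    ext x; simp
  rw [← Cardinal.mk_univ, h1]
  calc #(⋃ c : C, f ⁻¹' {c}) ≤ Cardinal.sum fun c : C => #(f ⁻¹' {c}) :=
        Cardinal.mk_iUnion_le_sum_mk
    _ ≤ Cardinal.sum fun _ : C => ℵ₀ := Cardinal.sum_le_sum _ _ hf
    _ = #C * ℵ₀ := Cardinal.sum_const' _ _

/-- A family of conditions whose members with the same value are pairwise incompatible. -/
theorem CCC.mk_le (hP : CCC P) {X C : Type} (f : X → C) (r : X → P)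
    (h : ∀ x x', x ≠ x' → f x = f x' → ¬ ∃ s, s ≤ r x ∧ s ≤ r x') : #X ≤ #C * ℵ₀ := by
  refine mk_le_of_fibres f fun c => ?_
  have hinj : InjOn r (f ⁻¹' {c}) := by
    intro x hx y hy hxy
    by_contra hne
    exact h x y hne (by rw [show f x = c from hx, show f y = c from hy])
      ⟨r x, le_rfl, by rw [hxy]⟩
  rw [← Cardinal.mk_image_eq_of_injOn _ _ hinj]
  refine hP _ ?_
  rintro _ ⟨x, hx, rfl⟩ _ ⟨y, hy, rfl⟩ hne
  exact h x y (fun hxy => hne (by rw [hxy])) (by rw [show f x = c from hx, show f y = c from hy])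

/-- Cardinals are preserved. -/
theorem CCC.noOnto (hP : CCC P) {X Y : Type} (hX : ℵ₀ ≤ #X) (hXY : #X < #Y) (p : P) :
    p ∈ NoOnto P X Y := by
  refine not_fex fun q _ F hF => ?_
  have h1 : ∀ y : Y, ∃ r ≤ q, ∃ x, r ∈ meets (F x y) := fun y => mem_fex.mp (hF.2 y) q le_rfl
  choose r hr x hx using h1
  have h2 := hP.mk_le x r (by
    rintro y y' hne hxx ⟨s, hs, hs'⟩
    apply hne
    refine IsFun_fun F q hF.1 s (hs.trans (hr y)) (x y) y y' (down_meets (hx y) hs) ?_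
    rw [hxx]
    exact down_meets (hx y') hs')
  rw [Cardinal.mul_eq_max hX le_rfl, max_eq_left hX] at h2
  exact absurd hXY (not_lt.mpr h2)

theorem mem_fiff {φ ψ : Set P} {p : P} :
    p ∈ fiff φ ψ ↔ (∀ q ≤ p, q ∈ φ → ∃ r ≤ q, r ∈ ψ) ∧ (∀ q ≤ p, q ∈ ψ → ∃ r ≤ q, r ∈ φ) := by
  unfold fiff fand
  rw [Set.mem_ofPred_eq, mem_fimp, mem_fimp]

theorem meets_of_dense {N : Set P} {p : P} (h : ∀ q ≤ p, ∃ r ≤ q, r ∈ meets N) : p ∈ meets N := by
  intro q hq
  obtain ⟨r, hr, hr'⟩ := h q hq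
  obtain ⟨s, hs, t, ht, hst⟩ := hr' r le_rfl
  exact ⟨s, hs.trans hr, t, ht, hst⟩

theorem mem_fiff_meets {N N' : Set P} {p : P} :
    p ∈ fiff (meets N) (meets N') ↔ ∀ q ≤ p, (q ∈ meets N ↔ q ∈ meets N') := by
  rw [mem_fiff]
  constructor
  · rintro ⟨h1, h2⟩ q hq
    constructor
    · intro h
      refine meets_of_dense fun q' hq' => ?_
      exact h1 q' (hq'.trans hq) (down_meets h hq')
    · intro h
      refine meets_of_dense fun q' hq' => ?_
      exact h2 q' (hq'.trans hq) (down_meets h hq')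
  · intro h
    exact ⟨fun q hq h' => ⟨q, le_rfl, (h q hq).mp h'⟩, fun q hq h' => ⟨q, le_rfl, (h q hq).mpr h'⟩⟩

/-- Powers do not drop. -/
theorem CCC.not_powLE (hP : CCC P) {A C : Type} (hA : ℵ₀ ≤ #A) (hC : #C < 2 ^ #A) (p : P) :
    p ∈ fnot (PowLE P A C) := by
  refine not_fex fun q _ E hE => ?_
  have h1 : ∀ S : Set A, ∃ r ≤ q, ∃ c : C, ∀ a : A,
      r ∈ fiff (meets {_r : P | a ∈ S}) (meets (E c a)) := fun S =>
    mem_fex.mp (hE fun a => {_r : P | a ∈ S}) q le_rfl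
  choose r hr c hc using h1
  have h2 := hP.mk_le c r (by
    rintro S S' hne hcc ⟨s, hs, hs'⟩
    apply hne
    ext a
    have h3 := mem_fiff_meets.mp (hc S a) s hs
    have h4 := mem_fiff_meets.mp (hc S' a) s hs'
    rw [meets_cst] at h3 h4
    rw [h3, h4, hcc])
  rw [Cardinal.mk_set] at h2
  rcases le_total ℵ₀ #C with h | h
  · rw [Cardinal.mul_eq_max h le_rfl, max_eq_left h] at h2
    exact absurd hC (not_lt.mpr h2)
  · have h5 : #C * ℵ₀ ≤ ℵ₀ := (mul_le_mul' h le_rfl).trans (Cardinal.mul_eq_self le_rfl).le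
    exact absurd (Cardinal.cantor #A) (not_lt.mpr ((h2.trans h5).trans hA))

/-- Nice names: powers do not grow too much. -/
theorem CCC.powLE (hP : CCC P) {A B : Type} (hB : #(A → ℕ → Option P) ≤ #B) (p : P) :
    p ∈ PowLE P A B := by
  obtain ⟨e⟩ := (Cardinal.le_def _ _).mp hB
  classical
  have : Nonempty (A → ℕ → Option P) := ⟨fun _ _ => none⟩
  let s : B → A → ℕ → Option P := Function.invFun e
  have hs : ∀ f, s (e f) = f := Function.leftInverse_invFun e.injective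
  refine mem_fex.mpr fun q _ => ⟨q, le_rfl, fun b a => {t | ∃ n, s b a n = some t}, ?_⟩
  intro x
  refine mem_fex.mpr fun r _ => ⟨r, le_rfl, ?_⟩
  -- maximal antichains
  have hmax : ∀ a, ∃ w : ℕ → Option P, (∀ n t, w n = some t → t ∈ meets (x a)) ∧
      ∀ u ∈ meets (x a), ∃ v ≤ u, ∃ n t, w n = some t ∧ v ≤ t := by
    intro a
    obtain ⟨W, hW⟩ := zorn_subset {W : Set P | W ⊆ meets (x a) ∧
      ∀ p ∈ W, ∀ q ∈ W, p ≠ q → ¬ ∃ r, r ≤ p ∧ r ≤ q} (by
      intro c hc hchain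
      refine ⟨⋃₀ c, ⟨sUnion_subset fun S hS => (hc hS).1, ?_⟩, fun S hS => subset_sUnion_of_mem hS⟩
      rintro p ⟨S, hS, hp⟩ q ⟨S', hS', hq⟩ hne
      rcases hchain.total hS hS' with h | h
      · exact (hc hS').2 p (h hp) q hq hne
      · exact (hc hS).2 p hp q (h hq) hne)
    have hWc := hP W hW.prop.2
    have hw : ∃ w : ℕ → Option P, ∀ t, (∃ n, w n = some t) ↔ t ∈ W := by
      rcases W.eq_empty_or_nonempty with h | h
      · refine ⟨fun _ => none, fun t => ?_⟩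
        rw [h]; simp
      · obtain ⟨f, hf⟩ := (Cardinal.le_aleph0_iff_set_countable.mp hWc).exists_eq_range h
        refine ⟨fun n => some (f n), fun t => ?_⟩
        rw [hf]; simp
    obtain ⟨w, hw⟩ := hw
    refine ⟨w, fun n t h => hW.prop.1 ((hw t).mp ⟨n, h⟩), ?_⟩
    intro u hu
    by_contra hcon
    have hnW : u ∉ W := by
      intro h
      obtain ⟨n, hn⟩ := (hw u).mpr h
      exact hcon ⟨u, le_rfl, n, u, hn, le_rfl⟩
    have h2 : insert u W ⊆ meets (x a) ∧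
        ∀ p ∈ insert u W, ∀ q ∈ insert u W, p ≠ q → ¬ ∃ r, r ≤ p ∧ r ≤ q := by
      refine ⟨insert_subset hu hW.prop.1, ?_⟩
      rintro p (rfl | hp) q (rfl | hq) hne ⟨v, hv, hv'⟩
      · exact hne rfl
      · obtain ⟨n, hn⟩ := (hw q).mpr hq
        exact hcon ⟨v, hv, n, q, hn, hv'⟩
      · obtain ⟨n, hn⟩ := (hw p).mpr hp
        exact hcon ⟨v, hv', n, p, hn, hv⟩
      · exact hW.prop.2 p hp q hq hne ⟨v, hv, hv'⟩
    exact hnW (hW.le_of_ge h2 (subset_insert u W) (mem_insert u W))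
  choose w hw1 hw2 using hmax
  refine ⟨e w, fun a => mem_fiff_meets.mpr fun u _ => ?_⟩
  show u ∈ meets (x a) ↔ u ∈ meets {t | ∃ n, s (e w) a n = some t}
  rw [hs w]
  constructor
  · intro hu v hv
    obtain ⟨v', hv', n, t, hn, ht⟩ := hw2 a v (down_meets hu hv)
    exact ⟨v', hv', t, ⟨n, hn⟩, ht⟩
  · intro hu
    refine meets_of_dense fun v hv => ?_
    obtain ⟨v', hv', t, ⟨n, hn⟩, ht⟩ := hu v hv
    exact ⟨v', hv', down_meets (hw1 a n t hn) ht⟩

end Pool.Agent.H631R2
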