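import Mathlib

set_option autoImplicit false

open Cardinal Set

namespace Pool.Agent.H631R2

section Tree

variable {X A : Type} [LinearOrder A] [WellFoundedLT A] [Nonempty A]

open Classical in
/-- The least coordinate at which `e x` and `e y` differ. -/
noncomputable def dl (e : X → A → Bool) (x y : X) : A :=
  if h : ({a | e x a ≠ e y a} : Set A).Nonempty then
    (wellFounded_lt : WellFounded ((· < ·) : A → A → Prop)).min _ h
  else Classical.arbitrary A

variable {e : X → A → Bool}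

theorem dl_spec {x y : X} (h : e x ≠ e y) : e x (dl e x y) ≠ e y (dl e x y) := by
  have h1 : ({a | e x a ≠ e y a} : Set A).Nonempty := Function.ne_iff.mp h
  have h2 := (wellFounded_lt : WellFounded ((· < ·) : A → A → Prop)).min_mem _ h1
  unfold dl
  rw [dif_pos h1]
  exact h2

theorem dl_le {x y : X} {a : A} (h : e x a ≠ e y a) : dl e x y ≤ a := by
  have h1 : ({a | e x a ≠ e y a} : Set A).Nonempty := ⟨a, h⟩
  unfold dl
  rw [dif_pos h1]
  exact not_lt.mp ((wellFounded_lt : WellFounded ((· < ·) : A → A → Prop)).not_lt_min _ h)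

theorem eq_of_lt_dl {x y : X} {a : A} (h : a < dl e x y) : e x a = e y a := by
  by_contra hne
  exact absurd (dl_le hne) (not_le.mpr h)

theorem dl_eq {x y : X} {a : A} (h : e x a ≠ e y a) (h' : ∀ b < a, e x b = e y b) :
    dl e x y = a := by
  refine le_antisymm (dl_le h) (not_lt.mp fun hlt => ?_)
  have h1 : e x ≠ e y := fun h2 => h (by rw [h2])
  exact dl_spec h1 (h' _ hlt)

theorem dl_comm (x y : X) : dl e x y = dl e y x := by
  by_cases h : e x = e y
  · unfold dl
    rw [dif_neg, dif_neg]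
    · rintro ⟨a, ha⟩; exact ha (by rw [h])
    · rintro ⟨a, ha⟩; exact ha (by rw [h])
  · exact dl_eq (dl_spec (Ne.symm h)).symm fun b hb => (eq_of_lt_dl hb).symm

/-- If `x` splits off from `y` below the splitting of `y` and `z`, then it splits off from `z` at
the same place. -/
theorem dl_iso {x y z : X} (hxy : e x ≠ e y) (h : dl e x y < dl e y z) :
    dl e x z = dl e x y := by
  refine dl_eq ?_ ?_
  · rw [← eq_of_lt_dl h]; exact dl_spec hxy
  · intro b hb
    rw [eq_of_lt_dl hb, eq_of_lt_dl (hb.trans h)]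

theorem dl_bin {x y z : X} (hxy : e x ≠ e y) (hyz : e y ≠ e z) (hxz : e x ≠ e z)
    (h : dl e x y = dl e y z) : dl e x y < dl e x z := by
  by_contra hcon
  push Not at hcon
  have h1 := dl_spec hxz
  rcases hcon.lt_or_eq with h2 | h2
  · exact h1 (by rw [eq_of_lt_dl h2, eq_of_lt_dl (h2.trans_le h.le)])
  · have h3 := dl_spec hxy
    have h4 := dl_spec hyz
    rw [← h] at h4
    rw [h2] at h1
    generalize e x (dl e x y) = p at *
    generalize e y (dl e x y) = q at *
    generalize e z (dl e x y) = r at *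
    revert h1 h3 h4
    cases p <;> cases q <;> cases r <;> simp

/-- Exactly one of three different points is the odd one out. -/
theorem dl_tri {x y z : X} (hxy : e x ≠ e y) (hyz : e y ≠ e z) (hxz : e x ≠ e z) :
    (dl e x y = dl e x z ∧ dl e x y < dl e y z) ∨
    (dl e x y = dl e y z ∧ dl e x y < dl e x z) ∨
    (dl e x z = dl e y z ∧ dl e x z < dl e x y) := by
  rcases lt_trichotomy (dl e x y) (dl e y z) with h | h | h
  · exact Or.inl ⟨(dl_iso hxy h).symm, h⟩
  · exact Or.inr (Or.inl ⟨h, dl_bin hxy hyz hxz h⟩)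
  · right; right
    have h1 : dl e z x = dl e z y := by
      apply dl_iso hyz.symm
      rw [dl_comm z y, dl_comm y x]; exact h
    rw [dl_comm z x, dl_comm z y] at h1
    exact ⟨h1, h1 ▸ h⟩

end Tree

section Small

variable {X : Type} [LinearOrder X]

/-- All proper initial segments of `S` have fewer than `θ` elements. -/
def Small (θ : Cardinal.{0}) (S : Set X) : Prop := ∀ x ∈ S, #{y | y ∈ S ∧ y < x} < θ

theorem Small.mono {θ : Cardinal.{0}} {S T : Set X} (h : Small θ S) (hT : T ⊆ S) :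
    Small θ T := by
  intro x hx
  refine (Cardinal.mk_le_mk_of_subset ?_).trans_lt (h x (hT hx))
  intro y hy
  exact ⟨hT hy.1, hy.2⟩

theorem exists_small [WellFoundedLT X] {θ : Cardinal.{0}} (S : Set X) (hS : #S = θ) :
    ∃ S' ⊆ S, #S' = θ ∧ Small θ S' := by
  by_cases h : Small θ S
  · exact ⟨S, subset_rfl, hS, h⟩
  · have hne : ({x | x ∈ S ∧ ¬ #{y | y ∈ S ∧ y < x} < θ} : Set X).Nonempty := by
      unfold Small at h
      push Not at h
      obtain ⟨x, hx, hx'⟩ := h
      exact ⟨x, hx, not_lt.mpr hx'⟩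
    set m := (wellFounded_lt : WellFounded ((· < ·) : X → X → Prop)).min _ hne with hm
    have hm1 := (wellFounded_lt : WellFounded ((· < ·) : X → X → Prop)).min_mem _ hne
    rw [← hm] at hm1
    refine ⟨{y | y ∈ S ∧ y < m}, fun y hy => hy.1, ?_, ?_⟩
    · refine le_antisymm ?_ (not_lt.mp hm1.2)
      rw [← hS]
      exact Cardinal.mk_le_mk_of_subset fun y hy => hy.1
    · rintro x ⟨hx, hxm⟩
      have h2 : #{y | y ∈ S ∧ y < x} < θ := by
        by_contra h3
        exact (wellFounded_lt : WellFounded ((· < ·) : X → X → Prop)).not_lt_min _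
          (show x ∈ ({x | x ∈ S ∧ ¬ #{y | y ∈ S ∧ y < x} < θ} : Set X) from ⟨hx, h3⟩) hxm
      refine (Cardinal.mk_le_mk_of_subset ?_).trans_lt h2
      rintro y ⟨⟨hy, _⟩, hyx⟩
      exact ⟨hy, hyx⟩

theorem Small.le_lt {θ : Cardinal.{0}} (hθ : ℵ₀ ≤ θ) {S : Set X} (h : Small θ S) {x : X}
    (hx : x ∈ S) : #{y | y ∈ S ∧ y ≤ x} < θ := by
  have h1 : {y | y ∈ S ∧ y ≤ x} ⊆ insert x {y | y ∈ S ∧ y < x} := by
    rintro y ⟨hy, hyx⟩
    rcases hyx.eq_or_lt with rfl | h2
    · exact mem_insert _ _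
    · exact mem_insert_of_mem _ ⟨hy, h2⟩
  refine (Cardinal.mk_le_mk_of_subset h1).trans_lt ((Cardinal.mk_insert_le).trans_lt ?_)
  exact Cardinal.add_lt_of_lt hθ (h x hx) (Cardinal.one_lt_aleph0.trans_le hθ)

theorem Small.exists_gt {θ : Cardinal.{0}} (hθ : ℵ₀ ≤ θ) {S P : Set X} (h : Small θ S)
    (hP : P ⊆ S) (hc : θ ≤ #P) {x : X} (hx : x ∈ S) : ∃ y ∈ P, x < y := by
  by_contra hcon
  push Not at hcon
  have : P ⊆ {y | y ∈ S ∧ y ≤ x} := fun y hy => ⟨hP hy, hcon y hy⟩
  exact absurd ((Cardinal.mk_le_mk_of_subset this).trans_lt (h.le_lt hθ hx)) (not_lt.mpr hc)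

theorem mk_biUnion_lt {ι : Type} {α : Type} {θ : Cardinal.{0}} (hθ : θ.IsRegular) (Z : Set ι)
    (hZ : #Z < θ) (f : ι → Set α) (hf : ∀ i ∈ Z, #(f i) < θ) : #(⋃ i ∈ Z, f i) < θ := by
  have h1 : (⋃ i ∈ Z, f i) = ⋃ i : Z, f i := by
    ext x; simp
  rw [h1]
  exact (Cardinal.mk_iUnion_le_sum_mk).trans_lt
    (Cardinal.sum_lt_of_isRegular hθ hZ fun i => hf i i.2)

/-- A cofinal subset of a set of regular order type has full size. -/
theorem Small.card_of_cofinal {θ : Cardinal.{0}} (hθ : θ.IsRegular) {S T : Set X}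
    (h : Small θ S) (hT : T ⊆ S) (hS : #S = θ) (hc : ∀ x ∈ S, ∃ y ∈ T, x ≤ y) : #T = θ := by
  refine le_antisymm (hS ▸ Cardinal.mk_le_mk_of_subset hT) ?_
  by_contra hcon
  push Not at hcon
  have h1 : S ⊆ ⋃ y ∈ T, {x | x ∈ S ∧ x ≤ y} := by
    intro x hx
    obtain ⟨y, hy, hxy⟩ := hc x hx
    exact mem_biUnion hy ⟨hx, hxy⟩
  have h2 := mk_biUnion_lt hθ T hcon (fun y => {x | x ∈ S ∧ x ≤ y})
    (fun y hy => h.le_lt hθ.aleph0_le (hT hy))
  exact absurd ((Cardinal.mk_le_mk_of_subset h1).trans_lt h2) (not_lt.mpr hS.ge)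

end Small

section Comb

variable {X A : Type} [LinearOrder X] [WellFoundedLT X] [LinearOrder A] [WellFoundedLT A]
  [Nonempty A]

/-- In every triple of `C` the least point is the odd one out. -/
def Comb (e : X → A → Bool) (C : Set X) : Prop :=
  ∀ x ∈ C, ∀ y ∈ C, ∀ z ∈ C, x < y → y < z → dl e x y < dl e y z

omit [WellFoundedLT X] in
theorem Comb.mono {e : X → A → Bool} {C C' : Set X} (h : Comb e C) (h' : C' ⊆ C) : Comb e C' :=
  fun x hx y hy z hz => h x (h' hx) y (h' hy) z (h' hz)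

/-- A set of regular size without the crossed pattern `{a, c | b, d}` for `a < b < c < d`
contains a comb of the same size. -/
theorem exists_comb {e : X → A → Bool} {θ : Cardinal.{0}} (hθ : θ.IsRegular) {S : Set X}
    (hS : #S = θ) (hinj : ∀ x ∈ S, ∀ y ∈ S, e x = e y → x = y)
    (hns : ∀ a ∈ S, ∀ b ∈ S, ∀ c ∈ S, ∀ d ∈ S, a < b → b < c → c < d →
      ¬ (dl e a b < dl e a c ∧ dl e a b < dl e b d)) :
    ∃ C ⊆ S, #C = θ ∧ Small θ C ∧ Comb e C := by
  classical
  obtain ⟨S', hS'S, hS', hsm⟩ := exists_small S hS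
  have hinj' : ∀ x ∈ S', ∀ y ∈ S', e x = e y → x = y := fun x hx y hy =>
    hinj x (hS'S hx) y (hS'S hy)
  have hns' : ∀ a ∈ S', ∀ b ∈ S', ∀ c ∈ S', ∀ d ∈ S', a < b → b < c → c < d →
      ¬ (dl e a b < dl e a c ∧ dl e a b < dl e b d) := fun a ha b hb c hc d hd =>
    hns a (hS'S ha) b (hS'S hb) c (hS'S hc) d (hS'S hd)
  have hinf := hθ.aleph0_le
  -- the majority branch
  let wf : WellFounded ((· < ·) : A → A → Prop) := wellFounded_lt
  let b : A → Bool := wf.fix fun a ih =>
    decide (#{y : X | y ∈ S' ∧ (∀ a' (h : a' < a), e y a' = ih a' h) ∧ e y a = true} = θ)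
  have hb : ∀ a, b a =
      decide (#{y : X | y ∈ S' ∧ (∀ a' < a, e y a' = b a') ∧ e y a = true} = θ) := by
    intro a
    exact WellFounded.fix_eq _ _ _
  let Y : A → Set X := fun a => {y | y ∈ S' ∧ (∀ a' < a, e y a' = b a') ∧ e y a ≠ b a}
  have hle : ∀ T : Set X, T ⊆ S' → #T ≤ θ := fun T hT => hS' ▸ Cardinal.mk_le_mk_of_subset hT
  have hY : ∀ a, #(Y a) < θ := by
    intro a
    refine lt_of_le_of_ne (hle _ fun y hy => hy.1) ?_
    intro hYa
    have hba := hb a
    cases hv : b a with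
    | false =>
      rw [hv] at hba
      have h1 := of_decide_eq_false hba.symm
      apply h1
      rw [← hYa]
      congr 2
      ext y
      simp only [Y, Set.mem_ofPred_eq, hv]
      simp
    | true =>
      rw [hv] at hba
      have h1 := of_decide_eq_true hba.symm
      set P : Set X := {y : X | y ∈ S' ∧ (∀ a' < a, e y a' = b a') ∧ e y a = true} with hP
      have hPS : P ⊆ S' := fun y hy => hy.1
      have hYS : Y a ⊆ S' := fun y hy => hy.1
      have hne : P.Nonempty := by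
        rw [← Set.nonempty_coe_sort, ← Cardinal.mk_ne_zero_iff, h1]
        exact (Cardinal.aleph0_pos.trans_le hinf).ne'
      obtain ⟨p, hp⟩ := hne
      obtain ⟨n, hn, hpn⟩ := hsm.exists_gt hinf hYS hYa.ge (hPS hp)
      obtain ⟨p', hp', hnp'⟩ := hsm.exists_gt hinf hPS h1.ge (hYS hn)
      obtain ⟨n', hn', hpn'⟩ := hsm.exists_gt hinf hYS hYa.ge (hPS hp')
      have hn3 : e n a = false := by have := hn.2.2; rw [hv] at this; simpa using this
      have hn3' : e n' a = false := by have := hn'.2.2; rw [hv] at this; simpa using this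
      have d1 : dl e p n = a := by
        refine dl_eq ?_ ?_
        · rw [hp.2.2, hn3]; simp
        · intro a' ha'; rw [hp.2.1 a' ha', hn.2.1 a' ha']
      have d2 : a < dl e p p' := by
        by_contra hcon
        push Not at hcon
        have hne : e p ≠ e p' := fun h => absurd (hinj' _ hp.1 _ hp'.1 h) (hpn.trans hnp').ne
        have := dl_spec hne
        rcases hcon.lt_or_eq with h | h
        · exact this (by rw [hp.2.1 _ h, hp'.2.1 _ h])
        · rw [h] at this; exact this (by rw [hp.2.2, hp'.2.2])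
      have d3 : a < dl e n n' := by
        by_contra hcon
        push Not at hcon
        have hne : e n ≠ e n' := fun h => absurd (hinj' _ hn.1 _ hn'.1 h) (hnp'.trans hpn').ne
        have := dl_spec hne
        rcases hcon.lt_or_eq with h | h
        · exact this (by rw [hn.2.1 _ h, hn'.2.1 _ h])
        · rw [h] at this; exact this (by rw [hn3, hn3'])
      exact hns' p hp.1 n hn.1 p' hp'.1 n' hn'.1 hpn hnp' hpn' ⟨d1 ▸ d2, d1 ▸ d3⟩
  -- the levels at which something splits off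
  let Z : Set A := {a | (Y a).Nonempty}
  have hcov : S' ⊆ {x | x ∈ S' ∧ e x = b} ∪ ⋃ a ∈ Z, Y a := by
    intro x hx
    by_cases hxb : e x = b
    · exact Or.inl ⟨hx, hxb⟩
    · right
      have hne : ({a | e x a ≠ b a} : Set A).Nonempty := Function.ne_iff.mp hxb
      have hmem : x ∈ Y (wf.min _ hne) := by
        refine ⟨hx, fun a' ha' => ?_, wf.min_mem _ hne⟩
        by_contra hcon
        exact wf.not_lt_min _ (show a' ∈ {a | e x a ≠ b a} from hcon) ha'
      exact mem_biUnion (show wf.min _ hne ∈ Z from ⟨x, hmem⟩) hmem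
  have hsub : #{x | x ∈ S' ∧ e x = b} ≤ 1 := by
    rw [Cardinal.mk_le_one_iff_set_subsingleton]
    intro x hx y hy
    exact hinj' x hx.1 y hy.1 (hx.2.trans hy.2.symm)
  have hZ : θ ≤ #Z := by
    by_contra hcon
    push Not at hcon
    have h1 := mk_biUnion_lt hθ Z hcon Y (fun a _ => hY a)
    have h2 : #S' < θ := by
      refine ((Cardinal.mk_le_mk_of_subset hcov).trans (Cardinal.mk_union_le _ _)).trans_lt ?_
      exact Cardinal.add_lt_of_lt hinf (hsub.trans_lt (Cardinal.one_lt_aleph0.trans_le hinf)) h1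
    exact absurd h2 (not_lt.mpr hS'.ge)
  have hch : ∀ a : Z, ∃ x, x ∈ Y a := fun a => a.2
  choose y hy using hch
  have hdl : ∀ a a' : Z, a < a' → dl e (y a) (y a') = a := by
    intro a a' h
    refine dl_eq ?_ ?_
    · rw [(hy a').2.1 _ h]; exact (hy a).2.2
    · intro c hc
      rw [(hy a).2.1 _ hc, (hy a').2.1 _ (hc.trans h)]
  have hyne : ∀ a a' : Z, a < a' → y a ≠ y a' := by
    intro a a' h heq
    have h1 := (hy a).2.2
    rw [heq, (hy a').2.1 _ h] at h1
    exact h1 rfl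
  have hyinj : Function.Injective y := by
    intro a a' h
    rcases lt_trichotomy a a' with h1 | h1 | h1
    · exact absurd h (hyne a a' h1)
    · exact h1
    · exact absurd h.symm (hyne a' a h1)
  -- records
  let R : Set Z := {a | ∀ a' < a, y a' < y a}
  have hcof : ∀ u ∈ S', ∃ x ∈ y '' R, u ≤ x := by
    intro u hu
    have hex : ({a : Z | u < y a} : Set Z).Nonempty := by
      have h1 : range y ⊆ S' := by rintro _ ⟨a, rfl⟩; exact (hy a).1
      have h2 : θ ≤ #(range y) := by rw [Cardinal.mk_range_eq _ hyinj]; exact hZ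
      obtain ⟨_, ⟨a, rfl⟩, ha⟩ := hsm.exists_gt hinf h1 h2 hu
      exact ⟨a, ha⟩
    let wfZ : WellFounded ((· < ·) : Z → Z → Prop) := wellFounded_lt
    refine ⟨y (wfZ.min _ hex), ⟨_, ?_, rfl⟩, (wfZ.min_mem _ hex).le⟩
    intro a' ha'
    have h1 : ¬ u < y a' := fun h => wfZ.not_lt_min _ (show a' ∈ {a : Z | u < y a} from h) ha'
    exact (not_lt.mp h1).trans_lt (wfZ.min_mem _ hex)
  have hRS : y '' R ⊆ S' := by rintro _ ⟨a, _, rfl⟩; exact (hy a).1
  refine ⟨y '' R, hRS.trans hS'S, hsm.card_of_cofinal hθ hRS hS' hcof, hsm.mono hRS, ?_⟩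
  rintro _ ⟨a, ha, rfl⟩ _ ⟨a', ha', rfl⟩ _ ⟨a'', ha'', rfl⟩ h1 h2
  have k1 : a < a' := by
    rcases lt_trichotomy a a' with h | h | h
    · exact h
    · rw [h] at h1; exact absurd h1 (lt_irrefl _)
    · exact absurd (ha a' h) h1.asymm
  have k2 : a' < a'' := by
    rcases lt_trichotomy a' a'' with h | h | h
    · exact h
    · rw [h] at h2; exact absurd h2 (lt_irrefl _)
    · exact absurd (ha' a'' h) h2.asymm
  rw [hdl a a' k1, hdl a' a'' k2]
  exact k1

/-- A set of regular size `θ` in which no middle point of a triple is the odd one out has at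
least `θ` splitting levels. -/
theorem levels_of_indep {e : X → A → Bool} {θ : Cardinal.{0}} (hθ : θ.IsRegular) {S : Set X}
    (hS : #S = θ) (hinj : ∀ x ∈ S, ∀ y ∈ S, e x = e y → x = y)
    (hM : ∀ a ∈ S, ∀ b ∈ S, ∀ c ∈ S, a < b → b < c → dl e a b ≠ dl e b c) :
    ∃ C ⊆ S, #C = θ ∧ Small θ C ∧ Comb e C := by
  refine exists_comb hθ hS hinj ?_
  intro a ha b hb c hc d hd hab hbc hcd ⟨h1, h2⟩
  have hne : ∀ x ∈ S, ∀ y ∈ S, x < y → e x ≠ e y := fun x hx y hy h h' =>
    h.ne (hinj x hx y hy h')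
  rcases dl_tri (hne a ha b hb hab) (hne b hb c hc hbc) (hne a ha c hc (hab.trans hbc)) with
    ⟨h3, _⟩ | ⟨h3, _⟩ | ⟨h3, h4⟩
  · exact absurd h1 (by rw [h3]; exact lt_irrefl _)
  · exact hM a ha b hb c hc hab hbc h3
  · exact absurd h4 h1.asymm

end Comb

end Pool.Agent.H631R2
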