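import Mathlib
import Pool.Agent.H631R2.Tree

set_option autoImplicit false

open Cardinal Set

namespace Pool.Agent.H631R2

/-- The cardinal-arithmetic setting: an index set `M` of regular type, regular cardinals `κ i`
above `#M`, a well-ordered set `L` cut into consecutive blocks `bl ξ = i`, the `i`-th of which is
coded by sequences of zeros and ones splitting at at most `κ i` places. -/
structure Setting where
  M : Type
  [oM : LinearOrder M]
  [wM : WellFoundedLT M]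
  hM : (#M).IsRegular
  hMi : ∀ i : M, #(Iio i) < #M
  κ : M → Cardinal.{0}
  κr : ∀ i, (κ i).IsRegular
  κM : ∀ i, #M < κ i
  κm : StrictMono κ
  L : Type
  [oL : LinearOrder L]
  [wL : WellFoundedLT L]
  [nL : Nonempty L]
  bl : L → M
  blm : Monotone bl
  K : Type
  [oK : LinearOrder K]
  [wK : WellFoundedLT K]
  [nK : Nonempty K]
  code : L → K → Bool
  Kb : M → Set K
  hKb : ∀ i, #(Kb i) ≤ κ i
  hcode : ∀ ξ η, ξ ≠ η → bl ξ = bl η → code ξ ≠ code η ∧ dl code ξ η ∈ Kb (bl ξ)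

attribute [instance] Setting.oM Setting.wM Setting.oL Setting.wL Setting.nL Setting.oK
  Setting.wK Setting.nK

namespace Setting

variable (Q : Setting)

/-- The middle point is the odd one out of a triple of one block. -/
def Mt (ξ η ζ : Q.L) : Prop :=
  Q.bl ξ = Q.bl η ∧ Q.bl η = Q.bl ζ ∧ dl Q.code ξ η = dl Q.code η ζ

variable {Λ : Type} [LinearOrder Λ] [WellFoundedLT Λ]

/-- The quadruples `a < b < c < d` which get the second colour in any case. -/
def G (e : Λ → Q.L → Bool) (a b c d : Λ) : Prop :=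
  (dl e a b < dl e b c ∧ dl e b c < dl e c d ∧ Q.Mt (dl e a b) (dl e b c) (dl e c d)) ∨
  (dl e b c < dl e a b ∧ dl e b c < dl e c d ∧ Q.bl (dl e a b) < Q.bl (dl e c d)) ∨
  (dl e a b < dl e a c ∧ dl e a b < dl e b d) ∨
  (dl e a b < dl e a d ∧ dl e a b < dl e b c)

variable {Q}

theorem Iic_lt (i : Q.M) : #(Iic i) < #Q.M := by
  have h1 : Iic i = insert i (Iio i) := by
    ext x; rw [mem_insert_iff, mem_Iic, mem_Iio, le_iff_eq_or_lt]
  rw [h1]
  refine (Cardinal.mk_insert_le).trans_lt ?_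
  exact Cardinal.add_lt_of_lt Q.hM.aleph0_le (Q.hMi i)
    (Cardinal.one_lt_aleph0.trans_le Q.hM.aleph0_le)

theorem exists_gt_of_card {S : Set Q.M} (hS : #S = #Q.M) (i : Q.M) : ∃ j ∈ S, i < j := by
  by_contra hcon
  push Not at hcon
  have : S ⊆ Iic i := hcon
  exact absurd ((Cardinal.mk_le_mk_of_subset this).trans_lt (Iic_lt i)) (not_lt.mpr hS.ge)

theorem exists_gt (i : Q.M) : ∃ j, i < j := by
  obtain ⟨j, _, h⟩ := exists_gt_of_card (Q := Q) (S := univ) (by rw [Cardinal.mk_univ]) i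
  exact ⟨j, h⟩

/-- An image of a small set of indices is bounded. -/
theorem bdd {ι : Type} (hι : #ι < #Q.M) (f : ι → Q.M) : ∃ b, ∀ i, f i < b := by
  by_contra hcon
  push Not at hcon
  have h1 : (univ : Set Q.M) = ⋃ i, Iic (f i) := by
    ext b
    simp only [mem_univ, mem_iUnion, mem_Iic, true_iff]
    exact hcon b
  have h2 : #(⋃ i, Iic (f i)) < #Q.M :=
    (Cardinal.mk_iUnion_le_sum_mk).trans_lt
      (Cardinal.sum_lt_of_isRegular Q.hM hι fun i => Iic_lt _)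
  rw [← h1, Cardinal.mk_univ] at h2
  exact lt_irrefl _ h2

/-- An unbounded set of indices has full size. -/
theorem card_of_unb {S : Set Q.M} (hS : ∀ m, ∃ i ∈ S, m < i) : #S = #Q.M := by
  refine le_antisymm (Cardinal.mk_set_le S) ?_
  by_contra hcon
  push Not at hcon
  obtain ⟨b, hb⟩ := bdd hcon (fun i : S => (i : Q.M))
  obtain ⟨i, hi, hbi⟩ := hS b
  exact absurd (hb ⟨i, hi⟩) hbi.asymm

end Setting

open Setting

variable {Q : Setting} {Λ : Type} [LinearOrder Λ] [WellFoundedLT Λ]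

/-- The data found in one of the sets. -/
theorem one_comb {e : Λ → Q.L → Bool} (he : Function.Injective e) (i : Q.M) {X : Set Λ}
    (hX : #X = Q.κ i)
    (hG : ∀ a ∈ X, ∀ b ∈ X, ∀ c ∈ X, ∀ d ∈ X, a < b → b < c → c < d → ¬ Q.G e a b c d) :
    ∃ (C : Set Λ) (k : Q.M) (d : Λ → Q.L), C ⊆ X ∧ #C = Q.κ i ∧ Small (Q.κ i) C ∧ i ≤ k ∧
      (∀ x ∈ C, Q.bl (d x) = k) ∧ (∀ x ∈ C, ∀ y ∈ C, x < y → dl e x y = d x) ∧
      (∀ x ∈ C, ∀ y ∈ C, x < y → d x < d y) := by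
  classical
  have hκ := Q.κr i
  have hinf := hκ.aleph0_le
  obtain ⟨C0, hC0X, hC0, hsm0, hcomb⟩ := exists_comb (e := e) hκ hX
    (fun x _ y _ h => he h) (by
      intro a ha b hb c hc d hd hab hbc hcd h
      exact hG a ha b hb c hc d hd hab hbc hcd (Or.inr (Or.inr (Or.inl h))))
  have hne : ∀ x y : Λ, x < y → e x ≠ e y := fun x y h h' => h.ne (he h')
  -- the level function
  have hnext : ∀ x ∈ C0, ∃ y ∈ C0, x < y := fun x hx => hsm0.exists_gt hinf subset_rfl hC0.ge hx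
  let nx : Λ → Λ := fun x => if h : x ∈ C0 then (hnext x h).choose else x
  have hnx : ∀ x ∈ C0, nx x ∈ C0 ∧ x < nx x := by
    intro x hx
    simp only [nx, dif_pos hx]
    exact (hnext x hx).choose_spec
  let d : Λ → Q.L := fun x => dl e x (nx x)
  have hd : ∀ x ∈ C0, ∀ y ∈ C0, x < y → dl e x y = d x := by
    intro x hx y hy hxy
    obtain ⟨h1, h2⟩ := hnx x hx
    show dl e x y = dl e x (nx x)
    rcases lt_trichotomy y (nx x) with h | h | h
    · exact (dl_iso (hne _ _ hxy) (hcomb x hx y hy _ h1 hxy h)).symm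
    · rw [← h]
    · exact dl_iso (hne _ _ h2) (hcomb x hx _ h1 y hy h2 h)
  have hdm : ∀ x ∈ C0, ∀ y ∈ C0, x < y → d x < d y := by
    intro x hx y hy hxy
    obtain ⟨h1, h2⟩ := hnx y hy
    rw [← hd x hx y hy hxy, ← hd y hy _ h1 h2]
    exact hcomb x hx y hy _ h1 hxy h2
  -- one block
  have hex : ∃ k : Q.M, #{x | x ∈ C0 ∧ Q.bl (d x) = k} = Q.κ i := by
    by_contra hcon
    push Not at hcon
    have h1 : ∀ k : Q.M, #{x | x ∈ C0 ∧ Q.bl (d x) = k} < Q.κ i := fun k =>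
      lt_of_le_of_ne (hC0 ▸ Cardinal.mk_le_mk_of_subset fun x hx => hx.1) (hcon k)
    have h2 : C0 ⊆ ⋃ k : Q.M, {x | x ∈ C0 ∧ Q.bl (d x) = k} := by
      intro x hx
      exact mem_iUnion.mpr ⟨Q.bl (d x), hx, rfl⟩
    have h3 : #(⋃ k : Q.M, {x | x ∈ C0 ∧ Q.bl (d x) = k}) < Q.κ i :=
      (Cardinal.mk_iUnion_le_sum_mk).trans_lt
        (Cardinal.sum_lt_of_isRegular hκ (Q.κM i) h1)
    exact absurd ((Cardinal.mk_le_mk_of_subset h2).trans_lt h3) (not_lt.mpr hC0.ge)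
  obtain ⟨k, hk⟩ := hex
  set C : Set Λ := {x | x ∈ C0 ∧ Q.bl (d x) = k} with hC
  have hCC : C ⊆ C0 := fun x hx => hx.1
  have hsmC : Small (Q.κ i) C := hsm0.mono hCC
  refine ⟨C, k, d, hCC.trans hC0X, hk, hsmC, ?_, fun x hx => hx.2,
    fun x hx y hy => hd x hx.1 y hy.1, fun x hx y hy => hdm x hx.1 y hy.1⟩
  -- the index bound
  have hDinj : InjOn d C := by
    intro x hx y hy hxy
    rcases lt_trichotomy x y with h | h | h
    · exact absurd hxy (hdm x hx.1 y hy.1 h).ne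
    · exact h
    · exact absurd hxy (hdm y hy.1 x hx.1 h).ne'
  have hD : #(d '' C) = Q.κ i := by rw [Cardinal.mk_image_eq_of_injOn d C hDinj, hk]
  have hbl : ∀ ξ ∈ d '' C, Q.bl ξ = k := by rintro _ ⟨x, hx, rfl⟩; exact hx.2
  have hDc : ∀ ξ ∈ d '' C, ∀ η ∈ d '' C, Q.code ξ = Q.code η → ξ = η := by
    intro ξ hξ η hη h
    by_contra hne'
    exact (Q.hcode ξ η hne' ((hbl ξ hξ).trans (hbl η hη).symm)).1 h
  have hlt : ∀ x ∈ C, ∀ y ∈ C, d x < d y → x < y := by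
    intro x hx y hy h
    rcases lt_trichotomy x y with h' | h' | h'
    · exact h'
    · rw [h'] at h; exact absurd h (lt_irrefl _)
    · exact absurd (hdm y hy.1 x hx.1 h') h.asymm
  obtain ⟨C', hC', hC'c, hC's, hC'comb⟩ := levels_of_indep (e := Q.code) hκ hD hDc (by
    rintro _ ⟨x, hx, rfl⟩ _ ⟨y, hy, rfl⟩ _ ⟨z, hz, rfl⟩ h1 h2 h3
    have hxy := hlt x hx y hy h1
    have hyz := hlt y hy z hz h2
    obtain ⟨w, hw, hzw⟩ := hsmC.exists_gt hinf subset_rfl hk.ge hz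
    refine hG x (hC0X hx.1) y (hC0X hy.1) z (hC0X hz.1) w (hC0X hw.1) hxy hyz hzw (Or.inl ?_)
    rw [hd x hx.1 y hy.1 hxy, hd y hy.1 z hz.1 hyz, hd z hz.1 w hw.1 hzw]
    exact ⟨h1, h2, by rw [hx.2, hy.2], by rw [hy.2, hz.2], h3⟩)
  -- `C'` has `κ i` different splitting levels in `Kb k`
  have hle : Q.κ i ≤ Q.κ k := by
    refine le_trans ?_ (Q.hKb k)
    have hn : ∀ ξ : C', ∃ η : C', (ξ : Q.L) < η := by
      intro ξ
      obtain ⟨η, hη, h⟩ := hC's.exists_gt hinf subset_rfl hC'c.ge ξ.2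
      exact ⟨⟨η, hη⟩, h⟩
    choose s hs using hn
    have hmem : ∀ ξ : C', dl Q.code (ξ : Q.L) (s ξ) ∈ Q.Kb k := by
      intro ξ
      have h1 := (Q.hcode ξ (s ξ) (hs ξ).ne
        ((hbl _ (hC' ξ.2)).trans (hbl _ (hC' (s ξ).2)).symm)).2
      rwa [hbl _ (hC' ξ.2)] at h1
    have hcne : ∀ ξ η : Q.L, ξ ∈ C' → η ∈ C' → ξ < η → Q.code ξ ≠ Q.code η := fun ξ η h1 h2 h3 h4 =>
      h3.ne (hDc ξ (hC' h1) η (hC' h2) h4)
    have hinj : Function.Injective
        (fun ξ : C' => (⟨dl Q.code (ξ : Q.L) (s ξ), hmem ξ⟩ : Q.Kb k)) := by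
      have key : ∀ ξ η : C', (ξ : Q.L) < η →
          dl Q.code (ξ : Q.L) (s ξ) < dl Q.code (η : Q.L) (s η) := by
        intro ξ η h
        have h1 : dl Q.code (ξ : Q.L) (s ξ) = dl Q.code (ξ : Q.L) η := by
          rcases lt_trichotomy ((s ξ : C') : Q.L) η with h2 | h2 | h2
          · exact (dl_iso (hcne _ _ ξ.2 (s ξ).2 (hs ξ))
              (hC'comb _ ξ.2 _ (s ξ).2 _ η.2 (hs ξ) h2)).symm
          · rw [h2]
          · exact dl_iso (hcne _ _ ξ.2 η.2 h) (hC'comb _ ξ.2 _ η.2 _ (s ξ).2 h h2)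
        rw [h1]
        exact hC'comb _ ξ.2 _ η.2 _ (s η).2 h (hs η)
      intro ξ η h
      have h' : dl Q.code (ξ : Q.L) (s ξ) = dl Q.code (η : Q.L) (s η) := congrArg Subtype.val h
      rcases lt_trichotomy (ξ : Q.L) η with h1 | h1 | h1
      · exact absurd h' (key ξ η h1).ne
      · exact Subtype.ext h1
      · exact absurd h' (key η ξ h1).ne'
    rw [← hC'c]
    exact Cardinal.mk_le_of_injective hinj
  exact (Q.κm.le_iff_le).mp hle

/-- The structure theorem. -/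
theorem structure_thm {e : Λ → Q.L → Bool} (he : Function.Injective e) (X : Q.M → Set Λ)
    (hX : ∀ i, #(X i) = Q.κ i)
    (hG : ∀ i j, ∀ a ∈ X i ∪ X j, ∀ b ∈ X i ∪ X j, ∀ c ∈ X i ∪ X j, ∀ d ∈ X i ∪ X j,
      a < b → b < c → c < d → ¬ Q.G e a b c d) :
    ∃ (I : Set Q.M) (C : Q.M → Set Λ) (k : Q.M → Q.M) (d : Q.M → Λ → Q.L),
      (∀ m, ∃ i ∈ I, m < i) ∧
      (∀ i ∈ I, C i ⊆ X i ∧ #(C i) = Q.κ i ∧ Small (Q.κ i) (C i) ∧ i ≤ k i ∧
        (∀ x ∈ C i, Q.bl (d i x) = k i) ∧ (∀ x ∈ C i, ∀ y ∈ C i, x < y → dl e x y = d i x) ∧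
        (∀ x ∈ C i, ∀ y ∈ C i, x < y → d i x < d i y)) ∧
      (∀ i ∈ I, ∀ j ∈ I, i < j → k i < k j ∧
        ∀ x ∈ C i, ∀ y ∈ C j, x < y ∧ dl e x y = d i x) := by
  classical
  have h1 : ∀ i, ∃ (C : Set Λ) (k : Q.M) (d : Λ → Q.L), C ⊆ X i ∧ #C = Q.κ i ∧
      Small (Q.κ i) C ∧ i ≤ k ∧
      (∀ x ∈ C, Q.bl (d x) = k) ∧ (∀ x ∈ C, ∀ y ∈ C, x < y → dl e x y = d x) ∧
      (∀ x ∈ C, ∀ y ∈ C, x < y → d x < d y) := by
    intro i
    refine one_comb he i (hX i) ?_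
    intro a ha b hb c hc d hd
    exact hG i i a (Or.inl ha) b (Or.inl hb) c (Or.inl hc) d (Or.inl hd)
  choose C k d hCX hCc hCs hik hbl hd hdm using h1
  -- suprema
  let wf : WellFounded ((· < ·) : Λ → Λ → Prop) := wellFounded_lt
  let U : Q.M → Set Λ := fun i => {x | ∀ y ∈ C i, y < x}
  let s : Q.M → WithTop Λ := fun i => if h : (U i).Nonempty then (wf.min _ h : Λ) else ⊤
  have hs1 : ∀ i, ∀ y ∈ C i, (y : WithTop Λ) < s i := by
    intro i y hy
    simp only [s]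
    split_ifs with h
    · exact WithTop.coe_lt_coe.mpr (wf.min_mem _ h y hy)
    · exact WithTop.coe_lt_top y
  have hs2 : ∀ i, ∀ x : Λ, (x : WithTop Λ) < s i → ∃ y ∈ C i, x ≤ y := by
    intro i x hx
    by_contra hcon
    push Not at hcon
    have hU : (U i).Nonempty := ⟨x, hcon⟩
    simp only [s, dif_pos hU] at hx
    exact wf.not_lt_min _ (show x ∈ U i from hcon) (WithTop.coe_lt_coe.mp hx)
  have hsne : ∀ i j, i < j → s i ≠ s j := by
    intro i j hij heq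
    have hκ := Q.κr j
    have h2 : C j ⊆ ⋃ y ∈ C i, {x | x ∈ C j ∧ x ≤ y} := by
      intro x hx
      have := hs1 j x hx
      rw [← heq] at this
      obtain ⟨y, hy, hxy⟩ := hs2 i x this
      exact mem_biUnion hy ⟨hx, hxy⟩
    have h3 : #(⋃ y ∈ C i, {x | x ∈ C j ∧ x ≤ y}) < Q.κ j := by
      refine mk_biUnion_lt hκ (C i) (by rw [hCc i]; exact Q.κm hij) _ ?_
      intro y hy
      have := hs1 i y hy
      rw [heq] at this
      obtain ⟨x0, hx0, hyx⟩ := hs2 j y this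
      refine (Cardinal.mk_le_mk_of_subset ?_).trans_lt ((hCs j).le_lt hκ.aleph0_le hx0)
      rintro x ⟨hx, hxy⟩
      exact ⟨hx, hxy.trans hyx⟩
    exact absurd ((Cardinal.mk_le_mk_of_subset h2).trans_lt h3) (not_lt.mpr (hCc j).ge)
  -- records of `k`
  let R : Set Q.M := {z | ∀ w < z, k w < k z}
  let wfM : WellFounded ((· < ·) : Q.M → Q.M → Prop) := wellFounded_lt
  have hR : ∀ u, ∃ z ∈ R, u < z := by
    intro u
    obtain ⟨b, hb⟩ := bdd (Q := Q) (Iic_lt u) (fun w : Iic u => k w)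
    have hne : ({z | b < k z} : Set Q.M).Nonempty := by
      obtain ⟨z, hz⟩ := Setting.exists_gt (Q := Q) b
      exact ⟨z, hz.trans_le (hik z)⟩
    refine ⟨wfM.min _ hne, ?_, ?_⟩
    · intro w hw
      have h2 : ¬ b < k w := fun h => wfM.not_lt_min _ (show w ∈ {z | b < k z} from h) hw
      exact (not_lt.mp h2).trans_lt (wfM.min_mem _ hne)
    · by_contra hcon
      push Not at hcon
      exact absurd (hb ⟨_, hcon⟩) (wfM.min_mem _ hne : b < _).asymm
  -- agreement of the suprema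
  let I : Set Q.M := {z | z ∈ R ∧ ∀ w ∈ R, s w < s z → w < z}
  have hI : ∀ u, ∃ z ∈ I, u < z := by
    intro u
    have hne : ({z | z ∈ R ∧ u < z} : Set Q.M).Nonempty := by
      obtain ⟨z, hz, h⟩ := hR u
      exact ⟨z, hz, h⟩
    let wfs : WellFounded (InvImage ((· < ·) : WithTop Λ → WithTop Λ → Prop) s) :=
      InvImage.wf s wellFounded_lt
    have hm := wfs.min_mem _ hne
    refine ⟨wfs.min _ hne, ⟨hm.1, ?_⟩, hm.2⟩
    intro w hw hsw
    by_contra hcon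
    push Not at hcon
    exact wfs.not_lt_min _ (show w ∈ {z | z ∈ R ∧ u < z} from ⟨hw, hm.2.trans_le hcon⟩) hsw
  have hIs : ∀ i ∈ I, ∀ j ∈ I, i < j → s i < s j := by
    intro i hi j hj hij
    rcases lt_trichotomy (s i) (s j) with h | h | h
    · exact h
    · exact absurd h (hsne i j hij)
    · exact absurd (hi.2 j hj.1 h) hij.asymm
  -- trimming
  let C' : Q.M → Set Λ := fun j => {x | x ∈ C j ∧ ∀ i ∈ I, i < j → ∀ y ∈ C i, y < x}
  have hC' : ∀ j ∈ I, #(C' j) = Q.κ j := by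
    intro j hj
    have hκ := Q.κr j
    have hx : ∀ i : {i // i ∈ I ∧ i < j}, ∃ x ∈ C j, ∀ y ∈ C i, y < x := by
      intro i
      have h2 := hIs i i.2.1 j hj i.2.2
      have hne : (U i).Nonempty := by
        by_contra hcon
        simp only [s, dif_neg hcon] at h2
        exact not_top_lt h2
      have h3 : s i = (wf.min _ hne : Λ) := by simp only [s, dif_pos hne]
      rw [h3] at h2
      obtain ⟨x, hx, hle⟩ := hs2 j _ h2
      exact ⟨x, hx, fun y hy => (wf.min_mem _ hne y hy).trans_le hle⟩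
    choose x hxC hx using hx
    have hcard : #{i // i ∈ I ∧ i < j} < Q.κ j :=
      (Cardinal.mk_subtype_le _).trans_lt (Q.κM j)
    -- a bound
    have hb : ∃ b ∈ C j, ∀ i, x i ≤ b := by
      by_contra hcon
      push Not at hcon
      have h2 : C j ⊆ ⋃ i : {i // i ∈ I ∧ i < j}, {y | y ∈ C j ∧ y ≤ x i} := by
        intro y hy
        obtain ⟨i, hi⟩ := hcon y hy
        exact mem_iUnion.mpr ⟨i, hy, hi.le⟩
      have h3 : #(⋃ i : {i // i ∈ I ∧ i < j}, {y | y ∈ C j ∧ y ≤ x i}) < Q.κ j :=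
        (Cardinal.mk_iUnion_le_sum_mk).trans_lt
          (Cardinal.sum_lt_of_isRegular hκ hcard fun i => (hCs j).le_lt hκ.aleph0_le (hxC i))
      exact absurd ((Cardinal.mk_le_mk_of_subset h2).trans_lt h3) (not_lt.mpr (hCc j).ge)
    obtain ⟨b, hbC, hb⟩ := hb
    refine (hCs j).card_of_cofinal hκ (fun y hy => hy.1) (hCc j) ?_
    intro u hu
    rcases le_total b u with h | h
    · exact ⟨u, ⟨hu, fun i hi hij y hy => ((hx ⟨i, hi, hij⟩ y hy).trans_le (hb _)).trans_le h⟩,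
        le_rfl⟩
    · exact ⟨b, ⟨hbC, fun i hi hij y hy => (hx ⟨i, hi, hij⟩ y hy).trans_le (hb _)⟩, h⟩
  have hC'C : ∀ j, C' j ⊆ C j := fun j y hy => hy.1
  have hC's : ∀ j, Small (Q.κ j) (C' j) := fun j => (hCs j).mono (hC'C j)
  have hC'n : ∀ j ∈ I, ∀ y ∈ C' j, ∃ z ∈ C' j, y < z := fun j hj y hy =>
    (hC's j).exists_gt (Q.κr j).aleph0_le subset_rfl (hC' j hj).ge hy
  have hC'lt : ∀ i ∈ I, ∀ j ∈ I, i < j → ∀ x ∈ C' i, ∀ y ∈ C' j, x < y := by
    intro i hi j hj hij x hx y hy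
    exact hy.2 i hi hij x hx.1
  have hk : ∀ i ∈ I, ∀ j ∈ I, i < j → k i < k j := fun i hi j hj hij => hj.1 i hij
  have hne : ∀ x y : Λ, x < y → e x ≠ e y := fun x y h h' => h.ne (he h')
  -- the splitting across
  have hcross : ∀ i ∈ I, ∀ j ∈ I, i < j → ∀ a ∈ C' i, ∀ b ∈ C' i, a < b → ∀ c ∈ C' j,
      dl e a b ≤ dl e b c := by
    intro i hi j hj hij a ha b hb hab c hc
    obtain ⟨f, hf, hcf⟩ := hC'n j hj c hc
    by_contra hcon
    push Not at hcon
    have h2 := hG i j a (Or.inl (hCX i ha.1)) b (Or.inl (hCX i hb.1)) c (Or.inr (hCX j hc.1))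
      f (Or.inr (hCX j hf.1)) hab (hC'lt i hi j hj hij b hb c hc) hcf
    apply h2
    right; left
    have h3 : dl e a b = d i a := hd i a ha.1 b hb.1 hab
    have h4 : dl e c f = d j c := hd j c hc.1 f hf.1 hcf
    have h5 : Q.bl (dl e a b) < Q.bl (dl e c f) := by
      rw [h3, h4, hbl i a ha.1, hbl j c hc.1]
      exact hk i hi j hj hij
    refine ⟨hcon, hcon.trans ?_, h5⟩
    by_contra h6
    push Not at h6
    exact absurd (Q.blm h6) (not_le.mpr h5)
  refine ⟨I, C', k, d, hI, ?_, ?_⟩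
  · intro i hi
    exact ⟨(hC'C i).trans (hCX i), hC' i hi, hC's i, hik i, fun x hx => hbl i x hx.1,
      fun x hx y hy => hd i x hx.1 y hy.1, fun x hx y hy => hdm i x hx.1 y hy.1⟩
  · intro i hi j hj hij
    refine ⟨hk i hi j hj hij, ?_⟩
    intro x hx y hy
    refine ⟨hC'lt i hi j hj hij x hx y hy, ?_⟩
    obtain ⟨x', hx', hxx⟩ := hC'n i hi x hx
    obtain ⟨x'', hx'', hxx'⟩ := hC'n i hi x' hx'
    have h2 : dl e x x' = d i x := hd i x hx.1 x' hx'.1 hxx
    have h3 : dl e x' x'' = d i x' := hd i x' hx'.1 x'' hx''.1 hxx'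
    have h4 : d i x < d i x' := hdm i x hx.1 x' hx'.1 hxx
    have h5 := hcross i hi j hj hij x' hx' x'' hx'' hxx' y hy
    -- `dl x' y ≥ d x'`
    have hxy' := hne _ _ (hC'lt i hi j hj hij x' hx' y hy)
    have hxy'' := hne _ _ (hC'lt i hi j hj hij x'' hx'' y hy)
    have h6 : dl e x' x'' ≤ dl e x' y := by
      rcases h5.lt_or_eq with h | h
      · exact (dl_iso (hne _ _ hxx') h).ge
      · exact (dl_bin (hne _ _ hxx') hxy'' hxy' h).le
    have h7 : dl e x x' < dl e x' y := by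
      rw [h2]; exact h4.trans_le (h3 ▸ h6)
    rw [dl_iso (hne _ _ hxx) h7, h2]

end Pool.Agent.H631R2
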