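import Mathlib
import Pool.Agent.H631R2.Structure

set_option autoImplicit false

open Cardinal Set

namespace Pool.Agent.H631R2

namespace Setting

variable (Q : Setting)

/-- The colouring of the triples `ξ < η < ζ` of `L`. -/
def f (g : Q.M → Q.K → Q.M → Bool) (ξ η ζ : Q.L) : Prop :=
  Q.Mt ξ η ζ ∨ (Q.bl ξ = Q.bl η ∧ Q.bl η < Q.bl ζ ∧
    Q.code η (dl Q.code ξ η) ≠ g (Q.bl ξ) (dl Q.code ξ η) (Q.bl ζ))

variable {Q}

theorem f_bl {g : Q.M → Q.K → Q.M → Bool} {ξ η ζ : Q.L} (h : Q.f g ξ η ζ) : Q.bl ξ = Q.bl η := by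
  rcases h with h | h
  · exact h.1
  · exact h.1

/-- No quadruple of `L` has all its triples of the second colour. -/
theorem f_free {g : Q.M → Q.K → Q.M → Bool} {ξ η ζ θ : Q.L} (_ : ξ < η) (h2 : η < ζ) (h3 : ζ < θ)
    (f1 : Q.f g ξ η ζ) (f2 : Q.f g ξ η θ) (f4 : Q.f g η ζ θ) : False := by
  have b1 := f_bl f1
  have b2 := f_bl f4
  have hηζ := Q.hcode η ζ h2.ne b2
  rcases f1 with f1 | f1
  · obtain ⟨_, _, e1⟩ := f1
    rcases f4 with f4 | f4
    · obtain ⟨_, b3, e4⟩ := f4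
      rcases f2 with f2 | f2
      · obtain ⟨_, _, e2⟩ := f2
        have hζθ := Q.hcode ζ θ h3.ne b3
        have hηθ := Q.hcode η θ (h2.trans h3).ne (b2.trans b3)
        have := dl_bin hηζ.1 hζθ.1 hηθ.1 e4
        rw [← e2, e1] at this
        exact lt_irrefl _ this
      · rw [b2, b3] at f2
        exact lt_irrefl _ f2.2.1
    · rcases f2 with f2 | f2
      · have := f4.2.1
        rw [← f2.2.1, b2] at this
        exact lt_irrefl _ this
      · have k1 := f2.2.2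
        have k2 := f4.2.2
        rw [e1, b1] at k1
        have k3 := dl_spec hηζ.1
        generalize Q.code η (dl Q.code η ζ) = p at *
        generalize Q.code ζ (dl Q.code η ζ) = q at *
        generalize g (Q.bl η) (dl Q.code η ζ) (Q.bl θ) = r at *
        revert k1 k2 k3
        cases p <;> cases q <;> cases r <;> simp
  · rw [b2] at f1
    exact lt_irrefl _ f1.2.1

variable {Λ : Type} [LinearOrder Λ] [WellFoundedLT Λ]

variable (Q) in
/-- The colouring of the quadruples `a < b < c < d` of `Λ`. -/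
def F (g : Q.M → Q.K → Q.M → Bool) (e : Λ → Q.L → Bool) (a b c d : Λ) : Prop :=
  (dl e a b < dl e b c ∧ dl e b c < dl e c d ∧ Q.f g (dl e a b) (dl e b c) (dl e c d)) ∨
  (dl e b c < dl e a b ∧ dl e b c < dl e c d ∧ Q.bl (dl e a b) < Q.bl (dl e c d)) ∨
  (dl e a b < dl e a c ∧ dl e a b < dl e b d) ∨
  (dl e a b < dl e a d ∧ dl e a b < dl e b c)

omit [LinearOrder Λ] [WellFoundedLT Λ] in
theorem F_of_G {g : Q.M → Q.K → Q.M → Bool} {e : Λ → Q.L → Bool} {a b c d : Λ}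
    (h : Q.G e a b c d) : Q.F g e a b c d := by
  rcases h with h | h | h | h
  · exact Or.inl ⟨h.1, h.2.1, Or.inl h.2.2⟩
  · exact Or.inr (Or.inl h)
  · exact Or.inr (Or.inr (Or.inl h))
  · exact Or.inr (Or.inr (Or.inr h))

omit [WellFoundedLT Λ] in
/-- No quintuple of `Λ` has all its quadruples of the second colour. -/
theorem F_free {g : Q.M → Q.K → Q.M → Bool} {e : Λ → Q.L → Bool} (he : Function.Injective e)
    {x1 x2 x3 x4 x5 : Λ} (h12 : x1 < x2) (h23 : x2 < x3) (h34 : x3 < x4) (h45 : x4 < x5)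
    (F4 : Q.F g e x1 x2 x3 x4) (F3 : Q.F g e x1 x2 x3 x5) (F2 : Q.F g e x1 x2 x4 x5)
    (F1 : Q.F g e x1 x3 x4 x5) (F0 : Q.F g e x2 x3 x4 x5) : False := by
  have hne : ∀ x y : Λ, x < y → e x ≠ e y := fun x y h h' => h.ne (he h')
  have A : ∀ x y z : Λ, x < y → y < z → dl e x y < dl e y z → dl e x z = dl e x y :=
    fun x y z h _ h' => dl_iso (hne x y h) h'
  have B : ∀ x y z : Λ, x < y → y < z → dl e y z < dl e x y → dl e x z = dl e y z := by
    intro x y z h h2 h'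
    rw [dl_comm x z, dl_comm y z]
    apply dl_iso (hne y z h2).symm
    rw [dl_comm z y, dl_comm y x]; exact h'
  have C : ∀ x y z : Λ, x < y → y < z → dl e x y = dl e y z → dl e x y < dl e x z :=
    fun x y z h h2 h' => dl_bin (hne x y h) (hne y z h2) (hne x z (h.trans h2)) h'
  have h13 := h12.trans h23
  have h14 := h13.trans h34
  have h15 := h14.trans h45
  have h24 := h23.trans h34
  have h25 := h24.trans h45
  have h35 := h34.trans h45
  -- the odd point in a triple whose outer pair is close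
  have D : ∀ x y z : Λ, x < y → y < z → dl e x y < dl e x z → dl e y z = dl e x y := by
    intro x y z hxy hyz h
    rcases lt_trichotomy (dl e x y) (dl e y z) with h' | h' | h'
    · rw [A x y z hxy hyz h'] at h; exact absurd h (lt_irrefl _)
    · exact h'.symm
    · rw [B x y z hxy hyz h'] at h; exact absurd h h'.asymm
  rcases F4 with ⟨a1, a2, a3⟩ | ⟨a1, a2, a3⟩ | ⟨a1, a2⟩ | ⟨a1, a2⟩
  · have e13 := A x1 x2 x3 h12 h23 a1
    have e24 := A x2 x3 x4 h23 h34 a2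
    have e14 := A x1 x2 x4 h12 h24 (by rw [e24]; exact a1)
    rcases F0 with ⟨b1, b2, b3⟩ | ⟨b1, b2, b3⟩ | ⟨b1, b2⟩ | ⟨b1, b2⟩
    · have e35 := A x3 x4 x5 h34 h45 b2
      have e25 := A x2 x3 x5 h23 h35 (by rw [e35]; exact b1)
      have e15 := A x1 x2 x5 h12 h25 (by rw [e25]; exact a1)
      have g2 : Q.f g (dl e x1 x2) (dl e x2 x3) (dl e x4 x5) := by
        rcases F2 with ⟨c1, c2, c3⟩ | ⟨c1, c2, c3⟩ | ⟨c1, c2⟩ | ⟨c1, c2⟩
        · rwa [e24] at c3
        · rw [e24] at c1; exact absurd c1 a1.asymm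
        · rw [e14] at c1; exact absurd c1 (lt_irrefl _)
        · rw [e15] at c1; exact absurd c1 (lt_irrefl _)
      exact f_free a1 a2 b2 a3 g2 b3
    · exact absurd b1 a2.asymm
    · rw [e24] at b1; exact absurd b1 (lt_irrefl _)
    · have e15 := A x1 x2 x5 h12 h25 (a1.trans b1)
      have e35 := D x2 x3 x5 h23 h35 b1
      rcases F3 with ⟨c1, c2, c3⟩ | ⟨c1, c2, c3⟩ | ⟨c1, c2⟩ | ⟨c1, c2⟩
      · rw [e35] at c2; exact absurd c2 (lt_irrefl _)
      · exact absurd c1 a1.asymm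
      · rw [e13] at c1; exact absurd c1 (lt_irrefl _)
      · rw [e15] at c1; exact absurd c1 (lt_irrefl _)
  · have e13 := B x1 x2 x3 h12 h23 a1
    have e24 := A x2 x3 x4 h23 h34 a2
    have e14 := B x1 x2 x4 h12 h24 (by rw [e24]; exact a1)
    rcases F1 with ⟨b1, b2, b3⟩ | ⟨b1, b2, b3⟩ | ⟨b1, b2⟩ | ⟨b1, b2⟩
    · have k1 := f_bl b3
      have k2 : Q.bl (dl e x1 x3) ≤ Q.bl (dl e x1 x2) := Q.blm (by rw [e13]; exact a1.le)
      rw [k1] at k2
      exact absurd a3 (not_lt.mpr k2)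
    · rw [e13] at b1; exact absurd b1 a2.asymm
    · rw [e13, e14, e24] at b1; exact absurd b1 (lt_irrefl _)
    · have e35 := D x1 x3 x5 h13 h35 b1
      rcases F3 with ⟨c1, c2, c3⟩ | ⟨c1, c2, c3⟩ | ⟨c1, c2⟩ | ⟨c1, c2⟩
      · exact absurd c1 a1.asymm
      · rw [e35, e13] at c2; exact absurd c2 (lt_irrefl _)
      · rw [e13] at c1; exact absurd c1 a1.asymm
      · exact absurd c2 a1.asymm
  · have e23 := D x1 x2 x3 h12 h23 a1
    have e34 := D x2 x3 x4 h23 h34 (by rw [e23]; exact a2)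
    have k25 : dl e x1 x2 < dl e x2 x5 := by
      rcases F3 with ⟨c1, c2, c3⟩ | ⟨c1, c2, c3⟩ | ⟨c1, c2⟩ | ⟨c1, c2⟩
      · rw [e23] at c1; exact absurd c1 (lt_irrefl _)
      · rw [e23] at c1; exact absurd c1 (lt_irrefl _)
      · exact c2
      · rw [e23] at c2; exact absurd c2 (lt_irrefl _)
    have e35 := D x2 x3 x5 h23 h35 (by rw [e23]; exact k25)
    rcases F0 with ⟨c1, c2, c3⟩ | ⟨c1, c2, c3⟩ | ⟨c1, c2⟩ | ⟨c1, c2⟩
    · rw [e34] at c1; exact absurd c1 (lt_irrefl _)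
    · rw [e34] at c1; exact absurd c1 (lt_irrefl _)
    · rw [e35] at c2; exact absurd c2 (lt_irrefl _)
    · rw [e34] at c2; exact absurd c2 (lt_irrefl _)
  · have e13 := A x1 x2 x3 h12 h23 a2
    have e24 := D x1 x2 x4 h12 h24 a1
    have e34 : dl e x3 x4 = dl e x1 x2 := by
      rcases lt_trichotomy (dl e x2 x3) (dl e x3 x4) with h | h | h
      · have := A x2 x3 x4 h23 h34 h
        rw [e24] at this; rw [this] at a2; exact absurd a2 (lt_irrefl _)
      · have := C x2 x3 x4 h23 h34 h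
        rw [e24] at this; exact absurd this a2.asymm
      · have := B x2 x3 x4 h23 h34 h
        rw [← this, e24]
    rcases F0 with ⟨c1, c2, c3⟩ | ⟨c1, c2, c3⟩ | ⟨c1, c2⟩ | ⟨c1, c2⟩
    · rw [e34] at c1; exact absurd c1 a2.asymm
    · have e35 := A x3 x4 x5 h34 h45 c2
      rcases F1 with ⟨d1, d2, d3⟩ | ⟨d1, d2, d3⟩ | ⟨d1, d2⟩ | ⟨d1, d2⟩
      · rw [e13, e34] at d1; exact absurd d1 (lt_irrefl _)
      · rw [e13, e34] at d1; exact absurd d1 (lt_irrefl _)
      · rw [e13, e35, e34] at d2; exact absurd d2 (lt_irrefl _)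
      · rw [e13, e34] at d2; exact absurd d2 (lt_irrefl _)
    · rw [e24] at c1; exact absurd c1 a2.asymm
    · rw [e34] at c2; exact absurd c2 a2.asymm

/-- If all quadruples of `H` have the first colour and `H` has at least `κ i` elements for each
`i`, then `g` has a homogeneity property. -/
theorem F_hom {g : Q.M → Q.K → Q.M → Bool} {e : Λ → Q.L → Bool} (he : Function.Injective e)
    (H : Set Λ) (hH : ∀ i, Q.κ i ≤ #H)
    (hF : ∀ a ∈ H, ∀ b ∈ H, ∀ c ∈ H, ∀ d ∈ H, a < b → b < c → c < d → ¬ Q.F g e a b c d) :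
    ∃ (I : Set Q.M) (k : Q.M → Q.M) (D : Q.M → Set Q.L), (∀ m, ∃ i ∈ I, m < i) ∧
      (∀ i ∈ I, #(D i) = Q.κ i ∧ i ≤ k i ∧ ∀ ξ ∈ D i, Q.bl ξ = k i) ∧
      (∀ i ∈ I, ∀ j ∈ I, i < j → k i < k j ∧ ∀ ξ ∈ D i, ∀ η ∈ D i, ξ < η →
        Q.code η (dl Q.code ξ η) = g (k i) (dl Q.code ξ η) (k j)) ∧
      (∀ i ∈ I, ∀ ξ ∈ D i, ∀ η ∈ D i, ∀ ζ ∈ D i, ξ < η → η < ζ →
        dl Q.code ξ η ≠ dl Q.code η ζ) := by
  have h1 : ∀ i, ∃ X ⊆ H, #X = Q.κ i := fun i => Cardinal.le_mk_iff_exists_subset.mp (hH i)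
  choose X hXH hX using h1
  obtain ⟨I, C, k, d, hI, hone, htwo⟩ := structure_thm he X hX (by
    intro i j a ha b hb c hc d hd hab hbc hcd h
    have hu : ∀ x ∈ X i ∪ X j, x ∈ H := by
      rintro x (hx | hx)
      · exact hXH i hx
      · exact hXH j hx
    exact hF a (hu a ha) b (hu b hb) c (hu c hc) d (hu d hd) hab hbc hcd (F_of_G h))
  refine ⟨I, k, fun i => d i '' C i, hI, ?_, ?_, ?_⟩
  · intro i hi
    obtain ⟨hCX, hCc, hCs, hik, hbl, hd, hdm⟩ := hone i hi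
    refine ⟨?_, hik, ?_⟩
    · rw [Cardinal.mk_image_eq_of_injOn, hCc]
      intro x hx y hy hxy
      rcases lt_trichotomy x y with h | h | h
      · exact absurd hxy (hdm x hx y hy h).ne
      · exact h
      · exact absurd hxy (hdm y hy x hx h).ne'
    · rintro _ ⟨x, hx, rfl⟩; exact hbl x hx
  · intro i hi j hj hij
    obtain ⟨hkk, hcr⟩ := htwo i hi j hj hij
    refine ⟨hkk, ?_⟩
    obtain ⟨hCX, hCc, hCs, hik, hbl, hd, hdm⟩ := hone i hi
    obtain ⟨hCX', hCc', hCs', hik', hbl', hd', hdm'⟩ := hone j hj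
    rintro _ ⟨x, hx, rfl⟩ _ ⟨y, hy, rfl⟩ hxy
    have hxy' : x < y := by
      rcases lt_trichotomy x y with h | h | h
      · exact h
      · rw [h] at hxy; exact absurd hxy (lt_irrefl _)
      · exact absurd hxy (hdm y hy x hx h).asymm
    have hne : (C j).Nonempty := by
      rw [← Set.nonempty_coe_sort, ← Cardinal.mk_ne_zero_iff, hCc']
      exact (Cardinal.aleph0_pos.trans_le (Q.κr j).aleph0_le).ne'
    obtain ⟨z, hz⟩ := hne
    obtain ⟨w, hw, hzw⟩ := hCs'.exists_gt (Q.κr j).aleph0_le subset_rfl hCc'.ge hz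
    have h2 := hF x (hXH i (hCX hx)) y (hXH i (hCX hy)) z (hXH j (hCX' hz)) w (hXH j (hCX' hw))
      hxy' (hcr y hy z hz).1 hzw
    by_contra hcon
    apply h2
    left
    rw [hd x hx y hy hxy', (hcr y hy z hz).2, hd' z hz w hw hzw]
    refine ⟨hxy, ?_, Or.inr ⟨?_, ?_, ?_⟩⟩
    · by_contra h3
      push Not at h3
      have := Q.blm h3
      rw [hbl y hy, hbl' z hz] at this
      exact absurd hkk (not_lt.mpr this)
    · rw [hbl x hx, hbl y hy]
    · rw [hbl y hy, hbl' z hz]; exact hkk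
    · rw [hbl x hx, hbl' z hz]; exact hcon
  · intro i hi
    obtain ⟨hCX, hCc, hCs, hik, hbl, hd, hdm⟩ := hone i hi
    rintro _ ⟨x, hx, rfl⟩ _ ⟨y, hy, rfl⟩ _ ⟨z, hz, rfl⟩ hxy hyz heq
    have hlt : ∀ x ∈ C i, ∀ y ∈ C i, d i x < d i y → x < y := by
      intro x hx y hy hxy
      rcases lt_trichotomy x y with h | h | h
      · exact h
      · rw [h] at hxy; exact absurd hxy (lt_irrefl _)
      · exact absurd hxy (hdm y hy x hx h).asymm
    have h1 := hlt x hx y hy hxy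
    have h2 := hlt y hy z hz hyz
    obtain ⟨w, hw, hzw⟩ := hCs.exists_gt (Q.κr i).aleph0_le subset_rfl hCc.ge hz
    refine hF x (hXH i (hCX hx)) y (hXH i (hCX hy)) z (hXH i (hCX hz)) w (hXH i (hCX hw))
      h1 h2 hzw (Or.inl ?_)
    rw [hd x hx y hy h1, hd y hy z hz h2, hd z hz w hw hzw]
    exact ⟨hxy, hyz, Or.inl ⟨by rw [hbl x hx, hbl y hy], by rw [hbl y hy, hbl z hz], heq⟩⟩

end Setting

end Pool.Agent.H631R2
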