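import Mathlib
import Pool.Agent.H631R2.Cohen

set_option autoImplicit false

open Cardinal Set

namespace Pool.Agent.H631R2

open Pool.Agent.Helper292.SP

namespace Cond

variable {I : Type}

/-- One stage of the recursion. -/
theorem stage {K X : Type} (V : Cond I → K → X → Prop) (p' : Cond I)
    (htot : ∀ q ≤ p', ∀ k, ∃ r ≤ q, ∃ x, V r k x)
    (T : Set K) {χ : Cardinal.{0}} (hχ : ℵ₀ ≤ χ) (hT : ¬ #T ≤ χ) :
    ∃ (T' : Set K) (x : K → X) (q : K → Cond I) (p'' : Cond I), T' ⊆ T ∧ (¬ #T' ≤ χ) ∧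
      p'' ≤ p' ∧ (∀ k ∈ T', q k ≤ p'' ∧ V (q k) k (x k)) ∧
      ∀ k ∈ T', ∀ k' ∈ T', k ≠ k' → (q k).dom ∩ (q k').dom = p''.dom := by
  choose! q hq x hx using htot p' le_rfl
  obtain ⟨T', r, hT', hc, hr, hd⟩ := delta hχ T hT q
  refine ⟨T', x, q, r, hT', hc, ?_, fun k hk => ⟨hr k hk, hx k⟩, hd⟩
  have h1 : 1 < #T' := (Cardinal.one_lt_aleph0.trans_le hχ).trans (not_le.mp hc)
  obtain ⟨⟨e, he⟩, ⟨e', he'⟩, hne⟩ := Cardinal.one_lt_iff_nontrivial.mp h1
  have hne' : e ≠ e' := fun h => hne (Subtype.ext h)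
  intro y hy
  have h2 : y.1 ∈ r.dom := by
    rw [← hd e he e' he' hne']
    exact ⟨mem_dom.mpr ⟨y.2, hq e hy⟩, mem_dom.mpr ⟨y.2, hq e' hy⟩⟩
  obtain ⟨b, hb⟩ := mem_dom.mp h2
  have h3 : b = y.2 := unique (hr e he hb) (hq e hy)
  rw [h3] at hb
  exact hb

/-- The thinning lemma. -/
theorem thin {K X : Type} (V : Cond I → K → X → Prop) (p : Cond I)
    (hdown : ∀ q r k x, r ≤ q → V q k x → V r k x)
    (htot : ∀ q ≤ p, ∀ k, ∃ r ≤ q, ∃ x, V r k x)
    (hinj : ∀ q ≤ p, ∀ k k' x, V q k x → V q k' x → k = k')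
    (χ : ℕ → Cardinal.{0}) (hχ : ∀ n, ℵ₀ ≤ χ n) (hχs : ∀ m n, m < n → Order.succ (χ m) ≤ χ n)
    (hK : ∀ n, χ n < #K) :
    ∃ (D : Set I) (Xn : ℕ → Set X) (q : ℕ → X → Cond I), D.Countable ∧
      (∀ n, #(Xn n) = Order.succ (χ n)) ∧
      (∀ n, ∀ x ∈ Xn n, q n x ≤ p ∧ ∃ k, V (q n x) k x) ∧
      (∀ n x m y, x ∈ Xn n → y ∈ Xn m → Agree (q n x) (q m y)) ∧
      (∀ n x m y, x ∈ Xn n → y ∈ Xn m → (n, x) ≠ (m, y) → (q n x).dom ∩ (q m y).dom ⊆ D) := by
  classical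
  -- the sets of indices
  have hKn : ∀ n, ∃ S : Set K, #S = Order.succ (χ n) := by
    intro n
    have h1 : Order.succ (χ n) ≤ #(univ : Set K) := by
      rw [Cardinal.mk_univ]; exact Order.succ_le_of_lt (hK n)
    obtain ⟨S, _, hS⟩ := Cardinal.le_mk_iff_exists_subset.mp h1
    exact ⟨S, hS⟩
  choose Kn hKn using hKn
  have hst := fun (n : ℕ) (p' : {p' : Cond I // p' ≤ p}) => stage V p'.1
    (fun q hq k => htot q (hq.trans p'.2) k) (Kn n) (hχ n)
    (by rw [hKn n]; exact not_le.mpr (Order.lt_succ (χ n)))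
  choose T x q p'' hT hTc hp'' hq hd using hst
  let P : ℕ → {p' : Cond I // p' ≤ p} := fun n =>
    Nat.rec ⟨p, le_rfl⟩ (fun n P => ⟨p'' n P, (hp'' n P).trans P.2⟩) n
  have hP : ∀ n, (P (n + 1)).1 = p'' n (P n) := fun n => rfl
  have hPmono : ∀ m n, m ≤ n → (P n).1 ≤ (P m).1 := by
    intro m n h
    induction h with
    | refl => exact le_rfl
    | step h ih => exact le_trans (by rw [hP]; exact hp'' _ _) ih
  -- notation
  let Tn : ℕ → Set K := fun n => T n (P n)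
  let xn : ℕ → K → X := fun n => x n (P n)
  let qn : ℕ → K → Cond I := fun n => q n (P n)
  have hTn : ∀ n, #(Tn n) = Order.succ (χ n) := by
    intro n
    refine le_antisymm ((Cardinal.mk_le_mk_of_subset (hT n (P n))).trans (hKn n).le) ?_
    exact Order.succ_le_of_lt (not_le.mp (hTc n (P n)))
  have hqn : ∀ n, ∀ k ∈ Tn n, qn n k ≤ (P (n + 1)).1 ∧ V (qn n k) k (xn n k) :=
    fun n k hk => hq n (P n) k hk
  have hdn : ∀ n, ∀ k ∈ Tn n, ∀ k' ∈ Tn n, k ≠ k' →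
      (qn n k).dom ∩ (qn n k').dom = (P (n + 1)).1.dom := fun n k hk k' hk' h =>
    hd n (P n) k hk k' hk' h
  let D : Set I := ⋃ n, (P n).1.dom
  have hD : D.Countable := countable_iUnion fun n => (P n).1.dom_finite.countable
  have hPD : ∀ n, (P n).1.dom ⊆ D := fun n => subset_iUnion (fun n => (P n).1.dom) n
  let Bad : ℕ → Set I := fun n => D ∪ ⋃ m : Fin n, ⋃ k : Tn m, (qn m k).dom
  have hBad : ∀ n, #(Bad n) ≤ χ n := by
    intro n
    refine DS.small_union (hχ n) (hD.le_aleph0.trans (hχ n)) ?_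
    refine DS.small_iUnion (hχ n) ?_ _ ?_
    · rw [Cardinal.mk_fin]
      exact (Cardinal.natCast_lt_aleph0).le.trans (hχ n)
    · intro m
      refine DS.small_iUnion (hχ n) ?_ _ ?_
      · rw [hTn]; exact hχs m n m.2
      · intro k
        exact (qn m k).dom_finite.lt_aleph0.le.trans (hχ n)
  let fr : ℕ → K → Set I := fun n k => (qn n k).dom \ (P (n + 1)).1.dom
  let T' : ℕ → Set K := fun n => {k | k ∈ Tn n ∧ Disjoint (fr n k) (Bad n)}
  have hT' : ∀ n, #(T' n) = Order.succ (χ n) := by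
    intro n
    refine le_antisymm ((Cardinal.mk_le_mk_of_subset fun k hk => hk.1).trans (hTn n).le) ?_
    refine Order.succ_le_of_lt (not_le.mp ?_)
    intro hcon
    have h1 : #({k | k ∈ Tn n ∧ ¬ Disjoint (fr n k) (Bad n)} : Set K) ≤ χ n := by
      refine le_trans ?_ (hBad n)
      have h2 : ∀ k : ({k | k ∈ Tn n ∧ ¬ Disjoint (fr n k) (Bad n)} : Set K),
          ∃ i : Bad n, (i : I) ∈ fr n k := by
        intro k
        obtain ⟨i, hi, hi'⟩ := Set.not_disjoint_iff.mp k.2.2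
        exact ⟨⟨i, hi'⟩, hi⟩
      choose i hi using h2
      refine Cardinal.mk_le_of_injective (f := i) ?_
      intro k k' h
      by_contra hne
      have hne' : (k : K) ≠ k' := fun h => hne (Subtype.ext h)
      have h3 := hdn n k k.2.1 k' k'.2.1 hne'
      have h4 := hi k
      have h5 := hi k'
      rw [← h] at h5
      exact h4.2 (h3 ▸ ⟨h4.1, h5.1⟩)
    have h3 : #(Tn n) ≤ χ n := by
      refine (Cardinal.mk_le_mk_of_subset ?_).trans (DS.small_union (hχ n) hcon h1)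
      intro k hk
      by_cases h : Disjoint (fr n k) (Bad n)
      · exact Or.inl ⟨hk, h⟩
      · exact Or.inr ⟨hk, h⟩
    rw [hTn n] at h3
    exact absurd h3 (not_le.mpr (Order.lt_succ (χ n)))
  have hT'T : ∀ n, T' n ⊆ Tn n := fun n k hk => hk.1
  -- intersections and agreement
  have hcross : ∀ m n k k', m < n → k ∈ T' m → k' ∈ T' n →
      (qn m k).dom ∩ (qn n k').dom ⊆ D ∧ Agree (qn m k) (qn n k') := by
    intro m n k k' hmn hk hk'
    have h1 : (qn m k).dom ∩ (qn n k').dom ⊆ D := by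
      rintro i ⟨hi, hi'⟩
      by_cases h2 : i ∈ (P (n + 1)).1.dom
      · exact hPD (n + 1) h2
      · exfalso
        refine Set.disjoint_left.mp hk'.2 ⟨hi', h2⟩ (Or.inr ?_)
        exact mem_iUnion.mpr ⟨⟨m, hmn⟩, mem_iUnion.mpr ⟨⟨k, hk.1⟩, hi⟩⟩
    refine ⟨h1, ?_⟩
    intro i b c hb hc
    have h2 : i ∈ D := h1 ⟨mem_dom.mpr ⟨b, hb⟩, mem_dom.mpr ⟨c, hc⟩⟩
    have h3 : i ∈ (P (m + 1)).1.dom := by
      by_contra h3
      exact Set.disjoint_left.mp hk.2 ⟨mem_dom.mpr ⟨b, hb⟩, h3⟩ (Or.inl h2)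
    obtain ⟨a, ha⟩ := mem_dom.mp h3
    have h4 : qn n k' ≤ (P (m + 1)).1 :=
      (hqn n k' hk'.1).1.trans (hPmono (m + 1) (n + 1) (by omega))
    rw [unique hb ((hqn m k hk.1).1 ha), unique hc (h4 ha)]
  have hsame : ∀ n k k', k ∈ T' n → k' ∈ T' n → k ≠ k' →
      (qn n k).dom ∩ (qn n k').dom ⊆ D ∧ Agree (qn n k) (qn n k') := by
    intro n k k' hk hk' hne
    have h1 := hdn n k hk.1 k' hk'.1 hne
    refine ⟨h1 ▸ hPD (n + 1), ?_⟩
    exact agree_of_root (hqn n k hk.1).1 (hqn n k' hk'.1).1 h1.subset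
  have hle : ∀ n, ∀ k ∈ T' n, qn n k ≤ p := fun n k hk =>
    (hqn n k hk.1).1.trans (P (n + 1)).2
  have hxinj : ∀ n, InjOn (xn n) (T' n) := by
    intro n k hk k' hk' h
    by_contra hne
    obtain ⟨r, hr, hr'⟩ := exists_lb (hsame n k k' hk hk' hne).2
    refine hne (hinj r (hr.trans (hle n k hk)) k k' (xn n k) (hdown _ _ _ _ hr (hqn n k hk.1).2) ?_)
    rw [h]
    exact hdown _ _ _ _ hr' (hqn n k' hk'.1).2
  -- the answer
  let kk : ℕ → X → K := fun n y => if h : ∃ k ∈ T' n, xn n k = y then h.choose else (Classical.choice (by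
    rw [← Cardinal.mk_ne_zero_iff]
    exact (Cardinal.aleph0_pos.trans_le ((hχ 0).trans (hK 0).le)).ne'))
  have hkk : ∀ n, ∀ y ∈ xn n '' T' n, kk n y ∈ T' n ∧ xn n (kk n y) = y := by
    rintro n y hy
    have h : ∃ k ∈ T' n, xn n k = y := hy
    simp only [kk, dif_pos h]
    exact h.choose_spec
  refine ⟨D, fun n => xn n '' T' n, fun n y => qn n (kk n y), hD, ?_, ?_, ?_, ?_⟩
  · intro n
    rw [Cardinal.mk_image_eq_of_injOn _ _ (hxinj n), hT' n]
  · intro n y hy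
    obtain ⟨h1, h2⟩ := hkk n y hy
    refine ⟨hle n _ h1, kk n y, ?_⟩
    have h3 := (hqn n _ h1.1).2
    rw [h2] at h3
    exact h3
  · intro n y m z hy hz
    obtain ⟨h1, h2⟩ := hkk n y hy
    obtain ⟨h3, h4⟩ := hkk m z hz
    rcases lt_trichotomy n m with h | h | h
    · exact (hcross n m _ _ h h1 h3).2
    · subst h
      by_cases hne : kk n y = kk n z
      · show Agree (qn n (kk n y)) (qn n (kk n z))
        rw [hne]; exact Agree.refl _
      · exact (hsame n _ _ h1 h3 hne).2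
    · exact (hcross m n _ _ h h3 h1).2.symm
  · intro n y m z hy hz hne
    obtain ⟨h1, h2⟩ := hkk n y hy
    obtain ⟨h3, h4⟩ := hkk m z hz
    rcases lt_trichotomy n m with h | h | h
    · exact (hcross n m _ _ h h1 h3).1
    · subst h
      refine (hsame n _ _ h1 h3 ?_).1
      intro h5
      apply hne
      rw [← h2, ← h4, h5]
    · rw [inter_comm]; exact (hcross m n _ _ h h3 h1).1

end Cond

end Pool.Agent.H631R2
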