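import Mathlib
import Pool.Agent.H631R2.Color
import Pool.Agent.H631R2.Thin
import Pool.Agent.H631R2.FLang

set_option autoImplicit false

open Cardinal Set

namespace Pool.Agent.H631R2

open Pool.Agent.Helper292.SP

/-- A splitting level outside of a small set. -/
theorem exists_level {X A : Type} [LinearOrder X] [WellFoundedLT X] [LinearOrder A]
    [WellFoundedLT A] [Nonempty A] {e : X → A → Bool} {θ : Cardinal.{0}} (hθ : θ.IsRegular)
    {S : Set X} (hS : #S = θ) (hinj : ∀ x ∈ S, ∀ y ∈ S, e x = e y → x = y)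
    (hM : ∀ a ∈ S, ∀ b ∈ S, ∀ c ∈ S, a < b → b < c → dl e a b ≠ dl e b c)
    (Z : Set A) (hZ : #Z < θ) : ∃ x ∈ S, ∃ y ∈ S, x < y ∧ dl e x y ∉ Z := by
  obtain ⟨C, hCS, hC, hCs, hcomb⟩ := levels_of_indep hθ hS hinj hM
  by_contra hcon
  push Not at hcon
  have hn : ∀ ξ : C, ∃ η : C, (ξ : X) < η := by
    intro ξ
    obtain ⟨η, hη, h⟩ := hCs.exists_gt hθ.aleph0_le subset_rfl hC.ge ξ.2
    exact ⟨⟨η, hη⟩, h⟩
  choose s hs using hn
  have hmem : ∀ ξ : C, dl e (ξ : X) (s ξ) ∈ Z := fun ξ =>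
    hcon ξ (hCS ξ.2) (s ξ) (hCS (s ξ).2) (hs ξ)
  have hne : ∀ ξ η : X, ξ ∈ C → η ∈ C → ξ < η → e ξ ≠ e η := fun ξ η h1 h2 h3 h4 =>
    h3.ne (hinj ξ (hCS h1) η (hCS h2) h4)
  have key : ∀ ξ η : C, (ξ : X) < η → dl e (ξ : X) (s ξ) < dl e (η : X) (s η) := by
    intro ξ η h
    have h1 : dl e (ξ : X) (s ξ) = dl e (ξ : X) η := by
      rcases lt_trichotomy ((s ξ : C) : X) η with h2 | h2 | h2
      · exact (dl_iso (hne _ _ ξ.2 (s ξ).2 (hs ξ))
          (hcomb _ ξ.2 _ (s ξ).2 _ η.2 (hs ξ) h2)).symm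
      · rw [h2]
      · exact dl_iso (hne _ _ ξ.2 η.2 h) (hcomb _ ξ.2 _ η.2 _ (s ξ).2 h h2)
    rw [h1]
    exact hcomb _ ξ.2 _ η.2 _ (s η).2 h (hs η)
  have hinj' : Function.Injective (fun ξ : C => (⟨dl e (ξ : X) (s ξ), hmem ξ⟩ : Z)) := by
    intro ξ η h
    have h' : dl e (ξ : X) (s ξ) = dl e (η : X) (s η) := congrArg Subtype.val h
    rcases lt_trichotomy (ξ : X) η with h1 | h1 | h1
    · exact absurd h' (key ξ η h1).ne
    · exact Subtype.ext h1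
    · exact absurd h' (key η ξ h1).ne'
  have := Cardinal.mk_le_of_injective hinj'
  rw [hC] at this
  exact absurd hZ (not_lt.mpr this)

section

variable {S : Setting} (o : S.M ≃o ℕ) (χ : ℕ → Cardinal.{0}) (hχ : ∀ n, ℵ₀ ≤ χ n)
  (hκχ : ∀ i, S.κ i = Order.succ (χ (o i)))

include hκχ in
theorem chi_mono (m n : ℕ) (h : m < n) : Order.succ (χ m) ≤ χ n := by
  have h1 : S.κ (o.symm m) < S.κ (o.symm n) := S.κm (o.symm.strictMono h)
  rw [hκχ, hκχ, o.apply_symm_apply, o.apply_symm_apply] at h1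
  exact Order.lt_succ_iff.mp h1

/-- The value of the Cohen reals. -/
def cval (h : S.K × S.M → Bool) : S.M → S.K → S.M → Bool := fun _ δ j => h (δ, j)

include hχ hκχ in
/-- The thinned sets. -/
theorem thin' {X K' : Type} (hK : ∀ n, χ n < #K') (p : Cond (S.K × S.M))
    (J : K' → X → Set (Cond (S.K × S.M))) (hJ : p ∈ fand (IsFun J) (IsInj J)) :
    ∃ (D : Set (S.K × S.M)) (Xn : S.M → Set X) (q : S.M → X → Cond (S.K × S.M)), D.Countable ∧
      (∀ n, #(Xn n) = S.κ n) ∧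
      (∀ n, ∀ x ∈ Xn n, q n x ≤ p ∧ ∃ k, q n x ∈ meets (J k x)) ∧
      (∀ n x m y, x ∈ Xn n → y ∈ Xn m → Cond.Agree (q n x) (q m y)) ∧
      (∀ n x m y, x ∈ Xn n → y ∈ Xn m → (n, x) ≠ (m, y) → (q n x).dom ∩ (q m y).dom ⊆ D) := by
  obtain ⟨D, Xn, q, h1, h2, h3, h4, h5⟩ := Cond.thin (fun q k x => q ∈ meets (J k x)) p
    (fun q r k x h h' => down_meets h' h)
    (fun q hq k => IsFun_tot J p hJ.1 q hq k)
    (by
      intro q hq k k' x hk hk'
      by_contra hne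
      exact hJ.2 k k' x q hq ⟨⟨hk, hk'⟩, fun r _ hr => hne hr⟩)
    χ hχ (chi_mono o χ hκχ) hK
  refine ⟨D, fun i => Xn (o i), fun i => q (o i), h1, fun n => by rw [h2, hκχ],
    fun n => h3 (o n), fun n x m y => h4 (o n) x (o m) y, fun n x m y hx hy hne => ?_⟩
  refine h5 (o n) x (o m) y hx hy ?_
  intro h
  apply hne
  rw [Prod.mk.injEq] at h
  rw [o.injective h.1, h.2]

/-- A common extension of four conditions of the thinned families. -/
theorem exists_four {I : Type} {q1 q2 q3 q4 : Cond I}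
    (h : ∀ i j : Fin 4, Cond.Agree (![q1, q2, q3, q4] i) (![q1, q2, q3, q4] j)) :
    ∃ r, r ≤ q1 ∧ r ≤ q2 ∧ r ≤ q3 ∧ r ≤ q4 ∧ r.dom ⊆ q1.dom ∪ q2.dom ∪ q3.dom ∪ q4.dom := by
  obtain ⟨r, hr, hr'⟩ := Cond.exists_union (Finset.univ : Finset (Fin 4)) ![q1, q2, q3, q4]
    (fun i _ j _ => h i j)
  refine ⟨r, hr 0 (Finset.mem_univ _), hr 1 (Finset.mem_univ _), hr 2 (Finset.mem_univ _),
    hr 3 (Finset.mem_univ _), ?_⟩
  intro i hi
  obtain ⟨b, hb⟩ := Cond.mem_dom.mp hi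
  obtain ⟨j, _, hj⟩ := hr' _ hb
  fin_cases j
  · exact Or.inl (Or.inl (Or.inl (Cond.mem_dom.mpr ⟨b, hj⟩)))
  · exact Or.inl (Or.inl (Or.inr (Cond.mem_dom.mpr ⟨b, hj⟩)))
  · exact Or.inl (Or.inr (Cond.mem_dom.mpr ⟨b, hj⟩))
  · exact Or.inr (Cond.mem_dom.mpr ⟨b, hj⟩)

theorem fst_countable {D : Set (S.K × S.M)} (hD : D.Countable) (i : S.M) :
    #(Prod.fst '' D) < S.κ i := by
  refine ((hD.image _).le_aleph0).trans_lt ?_
  exact S.hM.aleph0_le.trans_lt (S.κM i)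

include o in
/-- Only finitely many indices occur in a condition at a given place. -/
theorem exists_index (q q' : Cond (S.K × S.M)) (δ : S.K) (k : S.M → S.M) (I : Set S.M)
    (hI : ∀ m, ∃ i ∈ I, m < i) (hk : ∀ i ∈ I, i ≤ k i) (i : S.M) :
    ∃ j ∈ I, i < j ∧ (δ, k j) ∉ q.dom ∧ (δ, k j) ∉ q'.dom := by
  have hf : {m : S.M | (δ, m) ∈ q.dom ∪ q'.dom}.Finite := by
    refine (q.dom_finite.union q'.dom_finite).preimage (f := fun m : S.M => (δ, m)) ?_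
    intro a _ b _ h
    exact (Prod.mk.inj h).2
  obtain ⟨B, hB⟩ : ∃ B : S.M, ∀ m ∈ {m : S.M | (δ, m) ∈ q.dom ∪ q'.dom}, m ≤ B := by
    have : Nonempty S.M := ⟨o.symm 0⟩
    have := hf.bddAbove
    obtain ⟨B, hB⟩ := this
    exact ⟨B, fun m hm => hB hm⟩
  obtain ⟨j, hj, hj'⟩ := hI (max i B)
  refine ⟨j, hj, (le_max_left _ _).trans_lt hj', ?_, ?_⟩
  · intro h
    exact absurd (hB (k j) (Or.inl h)) (not_le.mpr ((le_max_right _ _).trans_lt (hj'.trans_le (hk j hj))))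
  · intro h
    exact absurd (hB (k j) (Or.inr h)) (not_le.mpr ((le_max_right _ _).trans_lt (hj'.trans_le (hk j hj))))

/-- A total function extending a condition. -/
def Ext (r : Cond (S.K × S.M)) (h : S.K × S.M → Bool) : Prop := ∀ x ∈ r.s, h x.1 = x.2

include hχ hκχ in
/-- The main lemma for quadruples. -/
theorem quad_forced {Λ K' : Type} [LinearOrder Λ] [WellFoundedLT Λ] {e : Λ → S.L → Bool}
    (he : Function.Injective e) (hK : ∀ n, χ n < #K') (p : Cond (S.K × S.M))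
    (J : K' → Λ → Set (Cond (S.K × S.M))) (hJ : p ∈ fand (IsFun J) (IsInj J)) :
    ∃ r ≤ p, ∃ a b c d : Λ, a < b ∧ b < c ∧ c < d ∧
      (∀ x, x = a ∨ x = b ∨ x = c ∨ x = d → ∃ k, r ∈ meets (J k x)) ∧
      ∀ h, Ext r h → S.F (cval h) e a b c d := by
  classical
  obtain ⟨D, Xn, q, hD, hX, hq, hag, hdis⟩ := thin' o χ hχ hκχ hK p J hJ
  by_contra hcon
  push Not at hcon
  -- a common form of the contradiction
  have key : ∀ i j : S.M, ∀ a ∈ Xn i ∪ Xn j, ∀ b ∈ Xn i ∪ Xn j, ∀ c ∈ Xn i ∪ Xn j,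
      ∀ d ∈ Xn i ∪ Xn j, ∃ ia ib ic id : S.M, a ∈ Xn ia ∧ b ∈ Xn ib ∧ c ∈ Xn ic ∧ d ∈ Xn id := by
    intro i j a ha b hb c hc d hd
    have : ∀ x ∈ Xn i ∪ Xn j, ∃ m, x ∈ Xn m := by
      rintro x (hx | hx)
      · exact ⟨i, hx⟩
      · exact ⟨j, hx⟩
    obtain ⟨ia, h1⟩ := this a ha
    obtain ⟨ib, h2⟩ := this b hb
    obtain ⟨ic, h3⟩ := this c hc
    obtain ⟨id, h4⟩ := this d hd
    exact ⟨ia, ib, ic, id, h1, h2, h3, h4⟩
  have amalg : ∀ (ia ib ic id : S.M) (a b c d : Λ), a ∈ Xn ia → b ∈ Xn ib → c ∈ Xn ic →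
      d ∈ Xn id → ∃ r, r ≤ q ia a ∧ r ≤ q ib b ∧ r ≤ q ic c ∧ r ≤ q id d ∧
      r.dom ⊆ (q ia a).dom ∪ (q ib b).dom ∪ (q ic c).dom ∪ (q id d).dom := by
    intro ia ib ic id a b c d ha hb hc hd
    refine exists_four ?_
    intro i j
    fin_cases i <;> fin_cases j <;>
      first
      | exact hag ia a ia a ha ha | exact hag ia a ib b ha hb | exact hag ia a ic c ha hc
      | exact hag ia a id d ha hd | exact hag ib b ia a hb ha | exact hag ib b ib b hb hb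
      | exact hag ib b ic c hb hc | exact hag ib b id d hb hd | exact hag ic c ia a hc ha
      | exact hag ic c ib b hc hb | exact hag ic c ic c hc hc | exact hag ic c id d hc hd
      | exact hag id d ia a hd ha | exact hag id d ib b hd hb | exact hag id d ic c hd hc
      | exact hag id d id d hd hd
  have vals : ∀ (ia ib ic id : S.M) (a b c d : Λ), a ∈ Xn ia → b ∈ Xn ib → c ∈ Xn ic →
      d ∈ Xn id → ∀ r : Cond (S.K × S.M), r ≤ q ia a → r ≤ q ib b → r ≤ q ic c → r ≤ q id d →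
      r ≤ p ∧ ∀ x, x = a ∨ x = b ∨ x = c ∨ x = d → ∃ k, r ∈ meets (J k x) := by
    intro ia ib ic id a b c d ha hb hc hd r r1 r2 r3 r4
    refine ⟨r1.trans (hq ia a ha).1, ?_⟩
    rintro x (rfl | rfl | rfl | rfl)
    · obtain ⟨k, hk⟩ := (hq _ _ ha).2
      exact ⟨k, down_meets hk r1⟩
    · obtain ⟨k, hk⟩ := (hq _ _ hb).2
      exact ⟨k, down_meets hk r2⟩
    · obtain ⟨k, hk⟩ := (hq _ _ hc).2
      exact ⟨k, down_meets hk r3⟩
    · obtain ⟨k, hk⟩ := (hq _ _ hd).2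
      exact ⟨k, down_meets hk r4⟩
  obtain ⟨I, C, k, d, hI, hone, htwo⟩ := structure_thm he Xn hX (by
    intro i j a ha b hb c hc d hd hab hbc hcd hG
    obtain ⟨ia, ib, ic, id, h1, h2, h3, h4⟩ := key i j a ha b hb c hc d hd
    obtain ⟨r, r1, r2, r3, r4, _⟩ := amalg ia ib ic id a b c d h1 h2 h3 h4
    obtain ⟨v1, v2⟩ := vals ia ib ic id a b c d h1 h2 h3 h4 r r1 r2 r3 r4
    obtain ⟨h, _, h6⟩ := hcon r v1 a b c d hab hbc hcd v2
    exact h6 (Setting.F_of_G hG))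
  -- a level avoiding the root
  obtain ⟨i, hi, -⟩ := hI (o.symm 0)
  obtain ⟨hCX, hCc, hCs, hik, hbl, hd, hdm⟩ := hone i hi
  have hDinj : InjOn (d i) (C i) := by
    intro x hx y hy hxy
    rcases lt_trichotomy x y with h | h | h
    · exact absurd hxy (hdm x hx y hy h).ne
    · exact h
    · exact absurd hxy (hdm y hy x hx h).ne'
  have hlt : ∀ x ∈ C i, ∀ y ∈ C i, d i x < d i y → x < y := by
    intro x hx y hy hxy
    rcases lt_trichotomy x y with h | h | h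
    · exact h
    · rw [h] at hxy; exact absurd hxy (lt_irrefl _)
    · exact absurd hxy (hdm y hy x hx h).asymm
  obtain ⟨_, ⟨x, hx, rfl⟩, _, ⟨y, hy, rfl⟩, hxy, hδ⟩ := exists_level (e := S.code) (S.κr i)
    (S := d i '' C i) (by rw [Cardinal.mk_image_eq_of_injOn _ _ hDinj, hCc])
    (by
      rintro _ ⟨x, hx, rfl⟩ _ ⟨y, hy, rfl⟩ h
      by_contra hne
      exact (S.hcode _ _ hne ((hbl x hx).trans (hbl y hy).symm)).1 h)
    (by
      rintro _ ⟨x, hx, rfl⟩ _ ⟨y, hy, rfl⟩ _ ⟨z, hz, rfl⟩ h1 h2 h3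
      have hxy := hlt x hx y hy h1
      have hyz := hlt y hy z hz h2
      obtain ⟨w, hw, hzw⟩ := hCs.exists_gt (S.κr i).aleph0_le subset_rfl hCc.ge hz
      obtain ⟨r, r1, r2, r3, r4, _⟩ := amalg i i i i x y z w (hCX hx) (hCX hy) (hCX hz) (hCX hw)
      obtain ⟨v1, v2⟩ := vals i i i i x y z w (hCX hx) (hCX hy) (hCX hz) (hCX hw) r r1 r2 r3 r4
      obtain ⟨h, _, h6⟩ := hcon r v1 x y z w hxy hyz hzw v2
      apply h6
      left
      rw [hd x hx y hy hxy, hd y hy z hz hyz, hd z hz w hw hzw]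
      exact ⟨h1, h2, Or.inl ⟨by rw [hbl x hx, hbl y hy], by rw [hbl y hy, hbl z hz], h3⟩⟩)
    (Prod.fst '' D) (fst_countable hD i)
  have hxy' := hlt x hx y hy hxy
  set δ := dl S.code (d i x) (d i y) with hδdef
  have hδD : ∀ m, (δ, m) ∉ D := fun m h => hδ ⟨_, h, rfl⟩
  -- a large index
  obtain ⟨j, hj, hij, hj1, hj2⟩ := exists_index o (q i x) (q i y) δ k I hI
    (fun i hi => (hone i hi).2.2.2.1) i
  obtain ⟨hCX', hCc', hCs', hik', hbl', hd', hdm'⟩ := hone j hj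
  obtain ⟨hkk, hcr⟩ := htwo i hi j hj hij
  -- two more points
  obtain ⟨z, hz, w, hw, hzw, hz', hw'⟩ : ∃ z ∈ C j, ∃ w ∈ C j, z < w ∧
      (δ, k j) ∉ (q j z).dom ∧ (δ, k j) ∉ (q j w).dom := by
    have hn : ∀ u ∈ C j, ∃ v ∈ C j, u < v := fun u hu =>
      hCs'.exists_gt (S.κr j).aleph0_le subset_rfl hCc'.ge hu
    have hne : (C j).Nonempty := by
      rw [← Set.nonempty_coe_sort, ← Cardinal.mk_ne_zero_iff, hCc']
      exact (Cardinal.aleph0_pos.trans_le (S.κr j).aleph0_le).ne'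
    obtain ⟨u1, hu1⟩ := hne
    obtain ⟨u2, hu2, h12⟩ := hn u1 hu1
    obtain ⟨u3, hu3, h23⟩ := hn u2 hu2
    have two : ∀ u ∈ C j, ∀ v ∈ C j, u < v → (δ, k j) ∈ (q j u).dom → (δ, k j) ∈ (q j v).dom →
        False := by
      intro u hu v hv huv h1 h2
      refine hδD (k j) (hdis j u j v (hCX' hu) (hCX' hv) ?_ ⟨h1, h2⟩)
      intro h
      exact huv.ne (Prod.mk.inj h).2
    by_cases c1 : (δ, k j) ∈ (q j u1).dom
    · exact ⟨u2, hu2, u3, hu3, h23, fun h => two u1 hu1 u2 hu2 h12 c1 h,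
        fun h => two u1 hu1 u3 hu3 (h12.trans h23) c1 h⟩
    · by_cases c2 : (δ, k j) ∈ (q j u2).dom
      · exact ⟨u1, hu1, u3, hu3, h12.trans h23, c1, fun h => two u2 hu2 u3 hu3 h23 c2 h⟩
      · exact ⟨u1, hu1, u2, hu2, h12, c1, c2⟩
  obtain ⟨r, r1, r2, r3, r4, hrd⟩ := amalg i i j j x y z w (hCX hx) (hCX hy) (hCX' hz) (hCX' hw)
  have hnr : (δ, k j) ∉ r.dom := by
    intro h
    rcases hrd h with ((h | h) | h) | h
    · exact hj1 h
    · exact hj2 h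
    · exact hz' h
    · exact hw' h
  obtain ⟨r', hr', hval, -⟩ := r.exists_ext hnr (!(S.code (d i y) δ))
  obtain ⟨v1, v2⟩ := vals i i j j x y z w (hCX hx) (hCX hy) (hCX' hz) (hCX' hw) r' (hr'.trans r1)
    (hr'.trans r2) (hr'.trans r3) (hr'.trans r4)
  obtain ⟨h, hext, h6⟩ := hcon r' v1 x y z w hxy' (hcr y hy z hz).1 hzw v2
  apply h6
  left
  rw [hd x hx y hy hxy', (hcr y hy z hz).2, hd' z hz w hw hzw]
  refine ⟨hxy, ?_, Or.inr ⟨?_, ?_, ?_⟩⟩
  · by_contra h3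
    push Not at h3
    have := S.blm h3
    rw [hbl y hy, hbl' z hz] at this
    exact absurd hkk (not_lt.mpr this)
  · rw [hbl x hx, hbl y hy]
  · rw [hbl y hy, hbl' z hz]; exact hkk
  · rw [hbl x hx, hbl' z hz]
    show S.code (d i y) δ ≠ h (δ, k j)
    rw [hext _ hval]
    cases S.code (d i y) δ <;> simp

include hχ hκχ in
/-- The main lemma for triples. -/
theorem triple_forced {K' : Type} (hK : ∀ n, χ n < #K') (p : Cond (S.K × S.M))
    (J : K' → S.L → Set (Cond (S.K × S.M))) (hJ : p ∈ fand (IsFun J) (IsInj J)) :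
    ∃ r ≤ p, ∃ a b c : S.L, a < b ∧ b < c ∧
      (∀ x, x = a ∨ x = b ∨ x = c → ∃ k, r ∈ meets (J k x)) ∧
      ∀ h, Ext r h → S.f (cval h) a b c := by
  classical
  obtain ⟨D, Xn, q, hD, hX, hq, hag, hdis⟩ := thin' o χ hχ hκχ hK p J hJ
  by_contra hcon
  push Not at hcon
  have amalg : ∀ (ia ib ic : S.M) (a b c : S.L), a ∈ Xn ia → b ∈ Xn ib → c ∈ Xn ic →
      ∃ r, r ≤ q ia a ∧ r ≤ q ib b ∧ r ≤ q ic c ∧
      r.dom ⊆ (q ia a).dom ∪ (q ib b).dom ∪ (q ic c).dom := by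
    intro ia ib ic a b c ha hb hc
    obtain ⟨r, h1, h2, h3, h4, h5⟩ := exists_four (q1 := q ia a) (q2 := q ib b) (q3 := q ic c)
      (q4 := q ic c) (by
        intro i j
        fin_cases i <;> fin_cases j <;>
          first
          | exact hag ia a ia a ha ha | exact hag ia a ib b ha hb | exact hag ia a ic c ha hc
          | exact hag ib b ia a hb ha | exact hag ib b ib b hb hb
          | exact hag ib b ic c hb hc | exact hag ic c ia a hc ha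
          | exact hag ic c ib b hc hb | exact hag ic c ic c hc hc)
    refine ⟨r, h1, h2, h3, h5.trans ?_⟩
    intro x hx
    rcases hx with hx | hx
    · exact hx
    · exact Or.inr hx
  have vals : ∀ (ia ib ic : S.M) (a b c : S.L), a ∈ Xn ia → b ∈ Xn ib → c ∈ Xn ic →
      ∀ r : Cond (S.K × S.M), r ≤ q ia a → r ≤ q ib b → r ≤ q ic c →
      r ≤ p ∧ ∀ x, x = a ∨ x = b ∨ x = c → ∃ k, r ∈ meets (J k x) := by
    intro ia ib ic a b c ha hb hc r r1 r2 r3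
    refine ⟨r1.trans (hq ia a ha).1, ?_⟩
    rintro x (rfl | rfl | rfl)
    · obtain ⟨k, hk⟩ := (hq _ _ ha).2
      exact ⟨k, down_meets hk r1⟩
    · obtain ⟨k, hk⟩ := (hq _ _ hb).2
      exact ⟨k, down_meets hk r2⟩
    · obtain ⟨k, hk⟩ := (hq _ _ hc).2
      exact ⟨k, down_meets hk r3⟩
  -- one block
  have hex : ∀ i, ∃ k : S.M, #{x | x ∈ Xn i ∧ S.bl x = k} = S.κ i := by
    intro i
    by_contra hcon
    push Not at hcon
    have h1 : ∀ k : S.M, #{x | x ∈ Xn i ∧ S.bl x = k} < S.κ i := fun k =>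
      lt_of_le_of_ne (hX i ▸ Cardinal.mk_le_mk_of_subset fun x hx => hx.1) (hcon k)
    have h2 : Xn i ⊆ ⋃ k : S.M, {x | x ∈ Xn i ∧ S.bl x = k} := by
      intro x hx
      exact mem_iUnion.mpr ⟨S.bl x, hx, rfl⟩
    have h3 : #(⋃ k : S.M, {x | x ∈ Xn i ∧ S.bl x = k}) < S.κ i :=
      (Cardinal.mk_iUnion_le_sum_mk).trans_lt
        (Cardinal.sum_lt_of_isRegular (S.κr i) (S.κM i) h1)
    exact absurd ((Cardinal.mk_le_mk_of_subset h2).trans_lt h3) (not_lt.mpr (hX i).ge)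
  choose k hk using hex
  have lev : ∀ i, ∀ Z : Set S.K, #Z < S.κ i → ∃ x ∈ Xn i, ∃ y ∈ Xn i, S.bl x = k i ∧
      S.bl y = k i ∧ x < y ∧ dl S.code x y ∉ Z := by
    intro i Z hZ
    obtain ⟨x, hx, y, hy, hxy, h⟩ := exists_level (e := S.code) (S.κr i) (hk i)
      (by
        rintro x hx y hy h
        by_contra hne
        exact (S.hcode _ _ hne (hx.2.trans hy.2.symm)).1 h)
      (by
        intro x hx y hy z hz hxy hyz heq
        obtain ⟨r, r1, r2, r3, _⟩ := amalg i i i x y z hx.1 hy.1 hz.1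
        obtain ⟨v1, v2⟩ := vals i i i x y z hx.1 hy.1 hz.1 r r1 r2 r3
        obtain ⟨h, _, h6⟩ := hcon r v1 x y z hxy hyz v2
        exact h6 (Or.inl ⟨by rw [hx.2, hy.2], by rw [hy.2, hz.2], heq⟩))
      Z hZ
    exact ⟨x, hx.1, y, hy.1, hx.2, hy.2, hxy, h⟩
  have hik : ∀ i, i ≤ k i := by
    intro i
    by_contra hlt
    push Not at hlt
    obtain ⟨x, hx, y, hy, bx, by', hxy, h⟩ := lev i (S.Kb (k i)) ((S.hKb (k i)).trans_lt (S.κm hlt))
    exact h (bx ▸ (S.hcode x y hxy.ne (bx.trans by'.symm)).2)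
  have hD' := fst_countable hD (o.symm 0)
  obtain ⟨x, hx, y, hy, bx, by', hxy, hδ⟩ := lev (o.symm 0) (Prod.fst '' D) hD'
  set i := o.symm 0 with hi0
  set δ := dl S.code x y with hδdef
  have hδD : ∀ m, (δ, m) ∉ D := fun m h => hδ ⟨_, h, rfl⟩
  obtain ⟨j, -, hij, hj1, hj2⟩ := exists_index o (q i x) (q i y) δ k univ
    (fun m => by
      obtain ⟨m', hm'⟩ := Setting.exists_gt (Q := S) m
      exact ⟨m', mem_univ _, hm'⟩)
    (fun i _ => hik i) (k i)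
  have hkk : k i < k j := hij.trans_le (hik j)
  -- one more point
  obtain ⟨z, hz, bz, hz'⟩ : ∃ z ∈ Xn j, S.bl z = k j ∧ (δ, k j) ∉ (q j z).dom := by
    have h1 : 1 < #{x | x ∈ Xn j ∧ S.bl x = k j} := by
      rw [hk j]; exact Cardinal.one_lt_aleph0.trans_le (S.κr j).aleph0_le
    obtain ⟨⟨u, hu⟩, ⟨v, hv⟩, hne⟩ := Cardinal.one_lt_iff_nontrivial.mp h1
    have hne' : u ≠ v := fun h => hne (Subtype.ext h)
    by_cases c1 : (δ, k j) ∈ (q j u).dom
    · refine ⟨v, hv.1, hv.2, fun h => ?_⟩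
      refine hδD (k j) (hdis j u j v hu.1 hv.1 ?_ ⟨c1, h⟩)
      intro h
      exact hne' (Prod.mk.inj h).2
    · exact ⟨u, hu.1, hu.2, c1⟩
  obtain ⟨r, r1, r2, r3, hrd⟩ := amalg i i j x y z hx hy hz
  have hnr : (δ, k j) ∉ r.dom := by
    intro h
    rcases hrd h with (h | h) | h
    · exact hj1 h
    · exact hj2 h
    · exact hz' h
  obtain ⟨r', hr', hval, -⟩ := r.exists_ext hnr (!(S.code y δ))
  obtain ⟨v1, v2⟩ := vals i i j x y z hx hy hz r' (hr'.trans r1) (hr'.trans r2) (hr'.trans r3)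
  have hyz : y < z := by
    by_contra h3
    push Not at h3
    have := S.blm h3
    rw [by', bz] at this
    exact absurd hkk (not_lt.mpr this)
  obtain ⟨h, hext, h6⟩ := hcon r' v1 x y z hxy hyz v2
  apply h6
  refine Or.inr ⟨?_, ?_, ?_⟩
  · rw [bx, by']
  · rw [by', bz]; exact hkk
  · rw [bz]
    show S.code y δ ≠ h (δ, k j)
    rw [hext _ hval]
    cases S.code y δ <;> simp

end

end Pool.Agent.H631R2
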