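import Mathlib
import Pool.Agent.H631R2.Color

set_option autoImplicit false

open Cardinal Set

namespace Pool.Agent.H631R2

theorem card_le_of_small {X : Type} [LinearOrder X] {c : Cardinal.{0}} (hc : ℵ₀ ≤ c) {S : Set X}
    (h : Small c S) : #S ≤ c := by
  by_contra hcon
  push Not at hcon
  obtain ⟨P, hP, hPc⟩ := Cardinal.le_mk_iff_exists_subset.mp hcon.le
  have h1 : S ⊆ ⋃ p : P, {x | x ∈ S ∧ x ≤ p} := by
    intro x hx
    obtain ⟨y, hy, hxy⟩ := h.exists_gt hc hP hPc.ge hx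
    exact mem_iUnion.mpr ⟨⟨y, hy⟩, hx, hxy.le⟩
  have h2 : #(⋃ p : P, {x | x ∈ S ∧ x ≤ p}) ≤ c := by
    calc #(⋃ p : P, {x | x ∈ S ∧ x ≤ p}) ≤ Cardinal.sum fun p : P => #{x | x ∈ S ∧ x ≤ (p : X)} :=
          Cardinal.mk_iUnion_le_sum_mk
      _ ≤ Cardinal.sum fun _ : P => c :=
          Cardinal.sum_le_sum _ _ fun p => (h.le_lt hc (hP p.2)).le
      _ = #P * c := by rw [Cardinal.sum_const']
      _ ≤ c := by rw [hPc, Cardinal.mul_eq_self hc]
  exact absurd ((Cardinal.mk_le_mk_of_subset h1).trans h2) (not_le.mpr hcon)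

/-- The parameters. -/
structure Par where
  M : Type
  [oM : LinearOrder M]
  [wM : WellFoundedLT M]
  hM : (#M).IsRegular
  hMi : ∀ i : M, #(Iio i) < #M
  κ : M → Cardinal.{0}
  κr : ∀ i, (κ i).IsRegular
  κM : ∀ i, #M < κ i
  κm : StrictMono κ

attribute [instance] Par.oM Par.wM

namespace Par

variable (P : Par)

/-- The cardinal `2 ^< κ`. -/
noncomputable def lam : Cardinal.{0} := ⨆ i, 2 ^ P.κ i

theorem le_lam (i : P.M) : 2 ^ P.κ i ≤ P.lam :=
  le_ciSup Cardinal.bddAbove_of_small i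

theorem nonempty : Nonempty P.M := by
  rw [← Cardinal.mk_ne_zero_iff]
  exact (Cardinal.aleph0_pos.trans_le P.hM.aleph0_le).ne'

/-- The points. -/
abbrev L : Type := P.lam.ord.ToType

theorem exists_block (ξ : P.L) : ({i : P.M | #(Iio ξ) < 2 ^ P.κ i} : Set P.M).Nonempty := by
  have h1 : #(Iio ξ) < P.lam := Cardinal.mk_Iio_toType_ord_lt ξ
  have := P.nonempty
  obtain ⟨i, hi⟩ := exists_lt_of_lt_ciSup h1
  exact ⟨i, hi⟩

/-- The block of a point. -/
noncomputable def bl (ξ : P.L) : P.M :=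
  (wellFounded_lt : WellFounded ((· < ·) : P.M → P.M → Prop)).min _ (P.exists_block ξ)

theorem bl_spec (ξ : P.L) : #(Iio ξ) < 2 ^ P.κ (P.bl ξ) :=
  (wellFounded_lt : WellFounded ((· < ·) : P.M → P.M → Prop)).min_mem _ (P.exists_block ξ)

theorem bl_le {ξ : P.L} {i : P.M} (h : #(Iio ξ) < 2 ^ P.κ i) : P.bl ξ ≤ i :=
  not_lt.mp ((wellFounded_lt : WellFounded ((· < ·) : P.M → P.M → Prop)).not_lt_min _
    (show i ∈ ({i : P.M | #(Iio ξ) < 2 ^ P.κ i} : Set P.M) from h))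

theorem bl_mono : Monotone P.bl := by
  intro ξ η h
  apply P.bl_le
  exact (Cardinal.mk_le_mk_of_subset (Iio_subset_Iio h)).trans_lt (P.bl_spec η)

theorem two_pow_inf (i : P.M) : ℵ₀ ≤ (2 : Cardinal.{0}) ^ P.κ i :=
  (P.κr i).aleph0_le.trans (Cardinal.cantor _).le

theorem card_block (i : P.M) : #{ξ : P.L | P.bl ξ = i} ≤ 2 ^ P.κ i := by
  refine card_le_of_small (P.two_pow_inf i) ?_
  intro ξ hξ
  have h1 := P.bl_spec ξ
  rw [show P.bl ξ = i from hξ] at h1
  refine (Cardinal.mk_le_mk_of_subset ?_).trans_lt h1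
  intro η hη
  exact hη.2

theorem exists_Kb (i : P.M) : ∃ S : Set P.L, #S = P.κ i := by
  have h1 : P.κ i ≤ #(univ : Set P.L) := by
    rw [Cardinal.mk_univ, Cardinal.mk_ord_toType]
    exact (Cardinal.cantor _).le.trans (P.le_lam i)
  obtain ⟨S, _, hS⟩ := Cardinal.le_mk_iff_exists_subset.mp h1
  exact ⟨S, hS⟩

/-- The coordinates used in a block. -/
noncomputable def Kb (i : P.M) : Set P.L := (P.exists_Kb i).choose

theorem mk_Kb (i : P.M) : #(P.Kb i) = P.κ i := (P.exists_Kb i).choose_spec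

theorem exists_code (i : P.M) : Nonempty ({ξ : P.L | P.bl ξ = i} ↪ (P.Kb i → Bool)) := by
  rw [← Cardinal.le_def, Cardinal.mk_arrow]
  simp only [Cardinal.lift_id, Cardinal.mk_bool, P.mk_Kb]
  exact P.card_block i

/-- The coding of the points of a block. -/
noncomputable def emb (i : P.M) : {ξ : P.L | P.bl ξ = i} ↪ (P.Kb i → Bool) := (P.exists_code i).some

open Classical in
/-- The coding of the points. -/
noncomputable def code (ξ k : P.L) : Bool :=
  if h : k ∈ P.Kb (P.bl ξ) then P.emb (P.bl ξ) ⟨ξ, rfl⟩ ⟨k, h⟩ else false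

theorem code_of_notMem {ξ k : P.L} (h : k ∉ P.Kb (P.bl ξ)) : P.code ξ k = false := by
  unfold code; rw [dif_neg h]

theorem lam_inf : ℵ₀ ≤ P.lam := by
  obtain ⟨i⟩ := P.nonempty
  exact (P.two_pow_inf i).trans (P.le_lam i)

instance : Nonempty P.L := by
  rw [← Cardinal.mk_ne_zero_iff, Cardinal.mk_ord_toType]
  exact (Cardinal.aleph0_pos.trans_le P.lam_inf).ne'

theorem code_spec (ξ η : P.L) (hne : ξ ≠ η) (h : P.bl ξ = P.bl η) :
    P.code ξ ≠ P.code η ∧ dl P.code ξ η ∈ P.Kb (P.bl ξ) := by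
  classical
  have h1 : ∃ k ∈ P.Kb (P.bl ξ), P.code ξ k ≠ P.code η k := by
    by_contra hcon
    push Not at hcon
    have h2 : ∀ (i : P.M) (h1 : P.bl ξ = i) (h2 : P.bl η = i),
        P.emb i ⟨ξ, h1⟩ = P.emb i ⟨η, h2⟩ := by
      intro i h1 h2
      subst h1
      funext k
      have h3 := hcon k k.2
      have h4 : P.code ξ k = P.emb (P.bl ξ) ⟨ξ, rfl⟩ k := by
        unfold code; rw [dif_pos k.2]
      have h5 : ∀ (i : P.M) (h : P.bl η = i) (k : P.L) (hk : k ∈ P.Kb i),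
          P.code η k = P.emb i ⟨η, h⟩ ⟨k, hk⟩ := by
        intro i h k hk
        subst h
        unfold code; rw [dif_pos hk]
      rw [← h4, h3, h5 _ h2 k k.2]
    have h3 := (P.emb (P.bl ξ)).injective (h2 _ rfl h.symm)
    exact hne (congrArg Subtype.val h3)
  have h2 : P.code ξ ≠ P.code η := by
    obtain ⟨k, _, hk⟩ := h1
    exact fun h => hk (by rw [h])
  refine ⟨h2, ?_⟩
  by_contra hcon
  apply dl_spec h2
  rw [P.code_of_notMem hcon, P.code_of_notMem (h ▸ hcon)]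

/-- The setting with these parameters. -/
noncomputable def toSetting : Setting where
  M := P.M
  hM := P.hM
  hMi := P.hMi
  κ := P.κ
  κr := P.κr
  κM := P.κM
  κm := P.κm
  L := P.L
  bl := P.bl
  blm := P.bl_mono
  K := P.L
  code := P.code
  Kb := P.Kb
  hKb i := (P.mk_Kb i).le
  hcode := P.code_spec

end Par

end Pool.Agent.H631R2
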