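import Mathlib
import Pool.Agent.H631R2.Mk

set_option autoImplicit false

open Cardinal Set

namespace Pool.Agent.H631R2

namespace Par

variable (P : Par)

/-- A choice of sets of coordinates. -/
structure Coord (P : Par) where
  K : Type
  [oK : LinearOrder K]
  [wK : WellFoundedLT K]
  [nK : Nonempty K]
  Kb : P.M → Set K
  hKb : ∀ i, #(Kb i) = P.κ i

attribute [instance] Coord.oK Coord.wK Coord.nK

variable {P} (R : P.Coord)

theorem exists_code2 (i : P.M) : Nonempty ({ξ : P.L | P.bl ξ = i} ↪ (R.Kb i → Bool)) := by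
  rw [← Cardinal.le_def, Cardinal.mk_arrow]
  simp only [Cardinal.lift_id, Cardinal.mk_bool, R.hKb]
  exact P.card_block i

/-- The coding of the points of a block. -/
noncomputable def emb2 (i : P.M) : {ξ : P.L | P.bl ξ = i} ↪ (R.Kb i → Bool) :=
  (exists_code2 R i).some

open Classical in
/-- The coding of the points. -/
noncomputable def code2 (ξ : P.L) (k : R.K) : Bool :=
  if h : k ∈ R.Kb (P.bl ξ) then emb2 R (P.bl ξ) ⟨ξ, rfl⟩ ⟨k, h⟩ else false

theorem code2_of_notMem {ξ : P.L} {k : R.K} (h : k ∉ R.Kb (P.bl ξ)) : code2 R ξ k = false := by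
  unfold code2; rw [dif_neg h]

theorem code2_spec (ξ η : P.L) (hne : ξ ≠ η) (h : P.bl ξ = P.bl η) :
    code2 R ξ ≠ code2 R η ∧ dl (code2 R) ξ η ∈ R.Kb (P.bl ξ) := by
  classical
  have h1 : ∃ k ∈ R.Kb (P.bl ξ), code2 R ξ k ≠ code2 R η k := by
    by_contra hcon
    push Not at hcon
    have h2 : ∀ (i : P.M) (h1 : P.bl ξ = i) (h2 : P.bl η = i),
        emb2 R i ⟨ξ, h1⟩ = emb2 R i ⟨η, h2⟩ := by
      intro i h1 h2
      subst h1
      funext k
      have h3 := hcon k k.2
      have h4 : code2 R ξ k = emb2 R (P.bl ξ) ⟨ξ, rfl⟩ k := by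
        unfold code2; rw [dif_pos k.2]
      have h5 : ∀ (i : P.M) (h : P.bl η = i) (k : R.K) (hk : k ∈ R.Kb i),
          code2 R η k = emb2 R i ⟨η, h⟩ ⟨k, hk⟩ := by
        intro i h k hk
        subst h
        unfold code2; rw [dif_pos hk]
      rw [← h4, h3, h5 _ h2 k k.2]
    have h3 := (emb2 R (P.bl ξ)).injective (h2 _ rfl h.symm)
    exact hne (congrArg Subtype.val h3)
  have h2 : code2 R ξ ≠ code2 R η := by
    obtain ⟨k, _, hk⟩ := h1
    exact fun h => hk (by rw [h])
  refine ⟨h2, ?_⟩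
  by_contra hcon
  apply dl_spec h2
  rw [code2_of_notMem R hcon, code2_of_notMem R (h ▸ hcon)]

/-- The setting with these parameters. -/
noncomputable def toSetting2 : Setting where
  M := P.M
  hM := P.hM
  hMi := P.hMi
  κ := P.κ
  κr := P.κr
  κM := P.κM
  κm := P.κm
  L := P.L
  bl := P.bl
  blm := P.bl_mono
  K := R.K
  code := code2 R
  Kb := R.Kb
  hKb i := (R.hKb i).le
  hcode := code2_spec R

end Par

end Pool.Agent.H631R2
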