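import Mathlib
import Pool.Agent.H631R2.Mk

set_option autoImplicit false

open Cardinal Set

namespace Pool.Agent.H631R2

open Classical in
/-- The colouring of the finite subsets of `Λ` given by a relation on increasing quadruples. -/
noncomputable def fcol {Λ : Type} [LinearOrder Λ] (R : Λ → Λ → Λ → Λ → Prop) (s : Finset Λ) :
    Bool :=
  if h : s.card = 4 then
    decide (R (s.orderEmbOfFin h 0) (s.orderEmbOfFin h 1) (s.orderEmbOfFin h 2)
      (s.orderEmbOfFin h 3))
  else false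

theorem fcol_eq {Λ : Type} [LinearOrder Λ] {R : Λ → Λ → Λ → Λ → Prop} {a b c d : Λ}
    (hab : a < b) (hbc : b < c) (hcd : c < d) :
    (({a, b, c, d} : Finset Λ).card = 4) ∧ (fcol R ({a, b, c, d} : Finset Λ) = true ↔ R a b c d) := by
  classical
  have hcard : ({a, b, c, d} : Finset Λ).card = 4 := by
    rw [Finset.card_insert_of_notMem, Finset.card_insert_of_notMem,
      Finset.card_insert_of_notMem, Finset.card_singleton]
    · simp only [Finset.mem_singleton]; exact hcd.ne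
    · simp only [Finset.mem_insert, Finset.mem_singleton, not_or]
      exact ⟨hbc.ne, (hbc.trans hcd).ne⟩
    · simp only [Finset.mem_insert, Finset.mem_singleton, not_or]
      exact ⟨hab.ne, (hab.trans hbc).ne, (hab.trans (hbc.trans hcd)).ne⟩
  refine ⟨hcard, ?_⟩
  have h1 : (![a, b, c, d] : Fin 4 → Λ) = ({a, b, c, d} : Finset Λ).orderEmbOfFin hcard := by
    apply Finset.orderEmbOfFin_unique
    · intro x; fin_cases x <;> simp
    · intro i j hij
      fin_cases i <;> fin_cases j <;> simp at hij ⊢ <;>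
        first
        | exact hab | exact hbc | exact hcd | exact hab.trans hbc | exact hbc.trans hcd
        | exact hab.trans (hbc.trans hcd)
  unfold fcol
  rw [dif_pos hcard, ← h1]
  exact decide_eq_true_iff

theorem exists_sorted5 {Λ : Type} [LinearOrder Λ] (s : Finset Λ) (h : s.card = 5) :
    ∃ x1 x2 x3 x4 x5 : Λ, x1 < x2 ∧ x2 < x3 ∧ x3 < x4 ∧ x4 < x5 ∧
      x1 ∈ s ∧ x2 ∈ s ∧ x3 ∈ s ∧ x4 ∈ s ∧ x5 ∈ s := by
  have hm := (s.orderEmbOfFin h).strictMono
  refine ⟨s.orderEmbOfFin h 0, s.orderEmbOfFin h 1, s.orderEmbOfFin h 2, s.orderEmbOfFin h 3,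
    s.orderEmbOfFin h 4, hm (by decide), hm (by decide), hm (by decide), hm (by decide), ?_, ?_,
    ?_, ?_, ?_⟩ <;> exact Finset.orderEmbOfFin_mem _ _ _

/-- The negative relation `2 ^ λ ↛ (κ, 5)⁴` for `λ = 2 ^< κ`. -/
theorem neg4 (P : Par) (g : P.M → P.M → Bool)
    (hg : ∀ I : Set P.M, (∀ m, ∃ i ∈ I, m < i) → ∀ v : Bool, ∃ i ∈ I, ∃ j ∈ I, i < j ∧ g i j ≠ v)
    (κ : Cardinal.{0}) (hκ : ∀ i, P.κ i ≤ κ) :
    ∃ (α : Type) (c : Finset α → Bool), #α = 2 ^ P.lam ∧
      (∀ H : Set α, #H = κ → ∃ s : Finset α, (s : Set α) ⊆ H ∧ s.card = 4 ∧ c s = true) ∧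
      (∀ s : Finset α, s.card = 5 → ∃ t : Finset α, t ⊆ s ∧ t.card = 4 ∧ c t = false) := by
  classical
  let Q := P.toSetting
  obtain ⟨c, hc⟩ : ∃ (c : Cardinal.{0}), c = 2 ^ P.lam := ⟨_, rfl⟩
  let Λ : Type := c.ord.ToType
  have h1 : #Λ = #(Q.L → Bool) := by
    show #(c.ord.ToType) = _
    rw [Cardinal.mk_ord_toType, Cardinal.mk_arrow]
    simp only [Cardinal.lift_id, Cardinal.mk_bool]
    show c = (2 : Cardinal.{0}) ^ #(P.lam.ord.ToType)
    rw [Cardinal.mk_ord_toType, hc]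
  obtain ⟨eq⟩ := Cardinal.eq.mp h1
  let e : Λ → Q.L → Bool := eq
  have he : Function.Injective e := eq.injective
  let g' : Q.M → Q.K → Q.M → Bool := fun i _ j => g i j
  refine ⟨Λ, fcol (Q.F g' e), (Cardinal.mk_ord_toType c).trans hc, ?_, ?_⟩
  · intro H hH
    by_contra hcon
    push Not at hcon
    obtain ⟨I, k, D, hI, hD, hcr, _⟩ := Setting.F_hom (Q := Q) (g := g') he H
      (fun i => (hκ i).trans hH.ge) (by
        intro a ha b hb c hc d hd hab hbc hcd hF
        obtain ⟨h2, h3⟩ := fcol_eq (R := Q.F g' e) hab hbc hcd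
        refine hcon {a, b, c, d} ?_ h2 (h3.mpr hF)
        intro x hx
        simp only [Finset.coe_insert, Finset.coe_singleton, mem_insert_iff,
          mem_singleton_iff] at hx
        rcases hx with rfl | rfl | rfl | rfl <;> assumption)
    -- a pair in each `D i`
    have hpair : ∀ i ∈ I, ∃ ξ ∈ D i, ∃ η ∈ D i, ξ < η := by
      intro i hi
      have h2 : 1 < #(D i) := by
        rw [(hD i hi).1]
        exact Cardinal.one_lt_aleph0.trans_le (Q.κr i).aleph0_le
      obtain ⟨⟨x, hx⟩, ⟨y, hy⟩, hxy⟩ := Cardinal.one_lt_iff_nontrivial.mp h2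
      have hxy' : x ≠ y := fun h => hxy (Subtype.ext h)
      rcases lt_or_gt_of_ne hxy' with h | h
      · exact ⟨x, hx, y, hy, h⟩
      · exact ⟨y, hy, x, hx, h⟩
    choose! ξ hξ η hη hξη using hpair
    let v : Q.M → Bool := fun i => Q.code (η i) (dl Q.code (ξ i) (η i))
    have hv : ∀ i ∈ I, ∀ j ∈ I, i < j → v i = g (k i) (k j) := fun i hi j hj hij =>
      (hcr i hi j hj hij).2 _ (hξ i hi) _ (hη i hi) (hξη i hi)
    let J : Bool → Set Q.M := fun b => {m | ∃ i ∈ I, v i = b ∧ m = k i}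
    have hJ : ∃ b, ∀ m, ∃ i ∈ J b, m < i := by
      by_contra hJ
      push Not at hJ
      obtain ⟨m1, h1⟩ := hJ true
      obtain ⟨m2, h2⟩ := hJ false
      obtain ⟨i, hi, him⟩ := hI (max m1 m2)
      have hik := (hD i hi).2.1
      cases hvi : v i with
      | true =>
        exact absurd (h1 (k i) ⟨i, hi, hvi, rfl⟩)
          (not_le.mpr ((le_max_left _ _).trans_lt (him.trans_le hik)))
      | false =>
        exact absurd (h2 (k i) ⟨i, hi, hvi, rfl⟩)
          (not_le.mpr ((le_max_right _ _).trans_lt (him.trans_le hik)))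
    obtain ⟨b, hb⟩ := hJ
    obtain ⟨_, ⟨i, hi, hvi, rfl⟩, _, ⟨j, hj, hvj, rfl⟩, hlt, hne⟩ := hg (J b) hb b
    have hij : i < j := by
      rcases lt_trichotomy i j with h | h | h
      · exact h
      · rw [h] at hlt; exact absurd hlt (lt_irrefl _)
      · exact absurd hlt (hcr j hj i hi h).1.asymm
    exact hne ((hv i hi j hj hij).symm.trans hvi)
  · intro s hs
    obtain ⟨x1, x2, x3, x4, x5, h12, h23, h34, h45, m1, m2, m3, m4, m5⟩ := exists_sorted5 s hs
    by_contra hcon
    push Not at hcon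
    have key : ∀ a b c d, a ∈ s → b ∈ s → c ∈ s → d ∈ s → a < b → b < c → c < d →
        Q.F g' e a b c d := by
      intro a b c d ha hb hc hd hab hbc hcd
      obtain ⟨h2, h3⟩ := fcol_eq (R := Q.F g' e) hab hbc hcd
      apply h3.mp
      have h4 := hcon {a, b, c, d} (by
        intro x hx
        simp only [Finset.mem_insert, Finset.mem_singleton] at hx
        rcases hx with rfl | rfl | rfl | rfl <;> assumption) h2
      simpa using h4
    exact Setting.F_free he h12 h23 h34 h45 (key x1 x2 x3 x4 m1 m2 m3 m4 h12 h23 h34)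
      (key x1 x2 x3 x5 m1 m2 m3 m5 h12 h23 (h34.trans h45))
      (key x1 x2 x4 x5 m1 m2 m4 m5 h12 (h23.trans h34) h45)
      (key x1 x3 x4 x5 m1 m3 m4 m5 (h12.trans h23) h34 h45)
      (key x2 x3 x4 x5 m2 m3 m4 m5 h23 h34 h45)

end Pool.Agent.H631R2
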