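import Mathlib
import Pool.Agent.H631R2.Forced
import Pool.Agent.H631R2.Neg

set_option autoImplicit false

open Cardinal Set

namespace Pool.Agent.H631R2

open Pool.Agent.Helper292.SP

/-- A total function extending a condition. -/
def ExtC {I : Type} (r : Cond I) (h : I → Bool) : Prop := ∀ x ∈ r.s, h x.1 = x.2

open Classical in
theorem exists_extC {I : Type} (r : Cond I) : ∃ h, ExtC r h := by
  refine ⟨fun i => decide ((i, true) ∈ r.s), ?_⟩
  rintro ⟨i, b⟩ hx
  cases b with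
  | true => simp [hx]
  | false =>
    have : (i, true) ∉ r.s := fun h => r.fn i h hx
    simp [this]

theorem nArrow_of {I Λ K' : Type} {m r : ℕ} (col : (I → Bool) → Finset Λ → Prop)
    (h1 : ∀ h, ∀ s : Finset Λ, s.card = m → ∃ t ⊆ s, t.card = r ∧ ¬ col h t)
    (h2 : ∀ (p : Cond I) (J : K' → Λ → Set (Cond I)), p ∈ fand (IsFun J) (IsInj J) →
      ∃ q ≤ p, ∃ t : Finset Λ, t.card = r ∧ (∀ x ∈ t, ∃ k, q ∈ meets (J k x)) ∧
        ∀ h, ExtC q h → col h t) (p : Cond I) :
    p ∈ NArrow (Cond I) Λ K' m r := by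
  classical
  have hdown : ∀ t, ∀ q ∈ {q : Cond I | ∀ h, ExtC q h → col h t}, ∀ u ≤ q,
      u ∈ {q : Cond I | ∀ h, ExtC q h → col h t} := by
    intro t q hq u hu h hh
    exact hq h fun x hx => hh x (hu hx)
  refine mem_fex.mpr fun q _ => ⟨q, le_rfl, fun t => {q | ∀ h, ExtC q h → col h t}, ?_, ?_⟩
  · intro J
    refine mem_fimp.mpr fun q1 _ hJ => ⟨q1, le_rfl, mem_fex.mpr fun q2 hq2 => ?_⟩
    obtain ⟨q3, hq3, t, ht, hx, hc⟩ := h2 q2 J
      ⟨down_IsFun J q1 q2 hJ.1 hq2, fun x x' y => down_fnot' (hJ.2 x x' y) hq2⟩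
    refine ⟨q3, hq3, t, ht, ?_, meets_of_mem (hdown t) hc⟩
    intro x
    refine mem_fex.mpr fun q4 hq4 => ?_
    obtain ⟨k, hk⟩ := hx x x.2
    exact ⟨q4, le_rfl, k, down_meets hk hq4⟩
  · intro s
    refine mem_fimp.mpr fun q1 _ hs => ⟨q1, le_rfl, mem_fex.mpr fun q2 _ => ?_⟩
    by_contra hcon
    push Not at hcon
    have h3 : ∀ T : Finset (Finset Λ), (∀ t ∈ T, t ⊆ s ∧ t.card = r) →
        ∃ q3 ≤ q2, ∀ t ∈ T, q3 ∈ {q : Cond I | ∀ h, ExtC q h → col h t} := by
      intro T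
      induction T using Finset.induction_on with
      | empty => exact fun _ => ⟨q2, le_rfl, by simp⟩
      | insert t T _ ih =>
        intro hT
        obtain ⟨q3, hq3, h4⟩ := ih fun t' ht' => hT t' (Finset.mem_insert_of_mem ht')
        have h5 := hcon q3 hq3 t
        have h6 : ¬ q3 ∈ fnot (meets {q : Cond I | ∀ h, ExtC q h → col h t}) := fun h =>
          h5 ⟨hT t (Finset.mem_insert_self _ _), h⟩
        have h7 : ∃ q4 ≤ q3, q4 ∈ meets {q : Cond I | ∀ h, ExtC q h → col h t} := by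
          by_contra h7
          push Not at h7
          exact h6 h7
        obtain ⟨q4, hq4, h8⟩ := h7
        obtain ⟨q5, hq5, u, hu, h9⟩ := h8 q4 le_rfl
        refine ⟨q5, (hq5.trans hq4).trans hq3, ?_⟩
        intro t' ht'
        rcases Finset.mem_insert.mp ht' with rfl | ht'
        · exact hdown _ u hu q5 h9
        · exact hdown _ q3 (h4 t' ht') q5 (hq5.trans hq4)
    obtain ⟨q3, _, h4⟩ := h3 (s.powersetCard r) fun t ht => Finset.mem_powersetCard.mp ht
    obtain ⟨h, hh⟩ := exists_extC q3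
    obtain ⟨t, hts, htc, hn⟩ := h1 h s hs
    exact hn (h4 t (Finset.mem_powersetCard.mpr ⟨hts, htc⟩) h hh)

open Classical in
/-- The colouring of the finite subsets given by a relation on increasing triples. -/
noncomputable def fcol3 {Λ : Type} [LinearOrder Λ] (R : Λ → Λ → Λ → Prop) (s : Finset Λ) :
    Bool :=
  if h : s.card = 3 then
    decide (R (s.orderEmbOfFin h 0) (s.orderEmbOfFin h 1) (s.orderEmbOfFin h 2))
  else false

theorem fcol3_eq {Λ : Type} [LinearOrder Λ] {R : Λ → Λ → Λ → Prop} {a b c : Λ}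
    (hab : a < b) (hbc : b < c) :
    (({a, b, c} : Finset Λ).card = 3) ∧ (fcol3 R ({a, b, c} : Finset Λ) = true ↔ R a b c) := by
  classical
  have hcard : ({a, b, c} : Finset Λ).card = 3 := by
    rw [Finset.card_insert_of_notMem, Finset.card_insert_of_notMem, Finset.card_singleton]
    · simp only [Finset.mem_singleton]; exact hbc.ne
    · simp only [Finset.mem_insert, Finset.mem_singleton, not_or]
      exact ⟨hab.ne, (hab.trans hbc).ne⟩
  refine ⟨hcard, ?_⟩
  have h1 : (![a, b, c] : Fin 3 → Λ) = ({a, b, c} : Finset Λ).orderEmbOfFin hcard := by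
    apply Finset.orderEmbOfFin_unique
    · intro x; fin_cases x <;> simp
    · intro i j hij
      fin_cases i <;> fin_cases j <;> simp at hij ⊢ <;>
        first
        | exact hab | exact hbc | exact hab.trans hbc
  unfold fcol3
  rw [dif_pos hcard, ← h1]
  exact decide_eq_true_iff

theorem exists_sorted4 {Λ : Type} [LinearOrder Λ] (s : Finset Λ) (h : s.card = 4) :
    ∃ x1 x2 x3 x4 : Λ, x1 < x2 ∧ x2 < x3 ∧ x3 < x4 ∧ x1 ∈ s ∧ x2 ∈ s ∧ x3 ∈ s ∧ x4 ∈ s := by
  have hm := (s.orderEmbOfFin h).strictMono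
  refine ⟨s.orderEmbOfFin h 0, s.orderEmbOfFin h 1, s.orderEmbOfFin h 2, s.orderEmbOfFin h 3,
    hm (by decide), hm (by decide), hm (by decide), ?_, ?_, ?_, ?_⟩ <;>
    exact Finset.orderEmbOfFin_mem _ _ _

section

variable {S : Setting} (o : S.M ≃o ℕ) (χ : ℕ → Cardinal.{0}) (hχ : ∀ n, ℵ₀ ≤ χ n)
  (hκχ : ∀ i, S.κ i = Order.succ (χ (o i)))

include o hχ hκχ in
theorem forced3 {K' : Type} (hK : ∀ n, χ n < #K') (p : Cond (S.K × S.M)) :
    p ∈ NArrow (Cond (S.K × S.M)) S.L K' 4 3 := by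
  classical
  refine nArrow_of (fun h t => fcol3 (S.f (cval h)) t = true) ?_ ?_ p
  · intro h s hs
    obtain ⟨x1, x2, x3, x4, h12, h23, h34, m1, m2, m3, m4⟩ := exists_sorted4 s hs
    by_contra hcon
    push Not at hcon
    have key : ∀ a b c, a ∈ s → b ∈ s → c ∈ s → a < b → b < c → S.f (cval h) a b c := by
      intro a b c ha hb hc hab hbc
      obtain ⟨h2, h3⟩ := fcol3_eq (R := S.f (cval h)) hab hbc
      apply h3.mp
      refine hcon {a, b, c} ?_ h2
      intro x hx
      simp only [Finset.mem_insert, Finset.mem_singleton] at hx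
      rcases hx with rfl | rfl | rfl <;> assumption
    exact Setting.f_free h12 h23 h34 (key x1 x2 x3 m1 m2 m3 h12 h23)
      (key x1 x2 x4 m1 m2 m4 h12 (h23.trans h34)) (key x2 x3 x4 m2 m3 m4 h23 h34)
  · intro p J hJ
    obtain ⟨r, hr, a, b, c, hab, hbc, hx, hf⟩ := triple_forced o χ hχ hκχ hK p J hJ
    refine ⟨r, hr, {a, b, c}, (fcol3_eq (R := fun _ _ _ => True) hab hbc).1, ?_, ?_⟩
    · intro x hxs
      simp only [Finset.mem_insert, Finset.mem_singleton] at hxs
      exact hx x hxs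
    · intro h hh
      exact (fcol3_eq hab hbc).2.mpr (hf h hh)

include o hχ hκχ in
theorem forced4 {Λ K' : Type} [LinearOrder Λ] [WellFoundedLT Λ] {e : Λ → S.L → Bool}
    (he : Function.Injective e) (hK : ∀ n, χ n < #K') (p : Cond (S.K × S.M)) :
    p ∈ NArrow (Cond (S.K × S.M)) Λ K' 5 4 := by
  classical
  refine nArrow_of (fun h t => fcol (S.F (cval h) e) t = true) ?_ ?_ p
  · intro h s hs
    obtain ⟨x1, x2, x3, x4, x5, h12, h23, h34, h45, m1, m2, m3, m4, m5⟩ := exists_sorted5 s hs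
    by_contra hcon
    push Not at hcon
    have key : ∀ a b c d, a ∈ s → b ∈ s → c ∈ s → d ∈ s → a < b → b < c → c < d →
        S.F (cval h) e a b c d := by
      intro a b c d ha hb hc hd hab hbc hcd
      obtain ⟨h2, h3⟩ := fcol_eq (R := S.F (cval h) e) hab hbc hcd
      apply h3.mp
      refine hcon {a, b, c, d} ?_ h2
      intro x hx
      simp only [Finset.mem_insert, Finset.mem_singleton] at hx
      rcases hx with rfl | rfl | rfl | rfl <;> assumption
    exact Setting.F_free he h12 h23 h34 h45 (key x1 x2 x3 x4 m1 m2 m3 m4 h12 h23 h34)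
      (key x1 x2 x3 x5 m1 m2 m3 m5 h12 h23 (h34.trans h45))
      (key x1 x2 x4 x5 m1 m2 m4 m5 h12 (h23.trans h34) h45)
      (key x1 x3 x4 x5 m1 m3 m4 m5 (h12.trans h23) h34 h45)
      (key x2 x3 x4 x5 m2 m3 m4 m5 h23 h34 h45)
  · intro p J hJ
    obtain ⟨r, hr, a, b, c, d, hab, hbc, hcd, hx, hf⟩ :=
      quad_forced o χ hχ hκχ he hK p J hJ
    refine ⟨r, hr, {a, b, c, d}, (fcol_eq (R := fun _ _ _ _ => True) hab hbc hcd).1, ?_, ?_⟩
    · intro x hxs
      simp only [Finset.mem_insert, Finset.mem_singleton] at hxs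
      exact hx x hxs
    · intro h hh
      exact (fcol_eq hab hbc hcd).2.mpr (hf h hh)

end

end Pool.Agent.H631R2
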