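import Mathlib
import Pool.Agent.H631R2.Neg

set_option autoImplicit false

open Cardinal Set Ordinal

namespace Pool.Agent.H631R2

/-- An uncountable set of countable ordinals is not ordered by reals. -/
theorem no_real_order {M : Type} [LinearOrder M] [WellFoundedLT M] (I : Set M)
    (hI : ∀ m ∈ I, ∃ i ∈ I, m < i) (hc : ℵ₀ < #I) (r : M → ℝ)
    (hr : ∀ i ∈ I, ∀ j ∈ I, i < j → r i < r j) : False := by
  classical
  let wf : WellFounded ((· < ·) : M → M → Prop) := wellFounded_lt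
  have hne : ∀ m : I, ({i | i ∈ I ∧ (m : M) < i} : Set M).Nonempty := by
    intro m
    obtain ⟨i, hi, h⟩ := hI m m.2
    exact ⟨i, hi, h⟩
  let nx : I → M := fun m => wf.min _ (hne m)
  have hnx : ∀ m : I, nx m ∈ I ∧ (m : M) < nx m := fun m => wf.min_mem _ (hne m)
  have hnx' : ∀ m j : I, (m : M) < j → nx m ≤ j := fun m j h =>
    not_lt.mp (wf.not_lt_min _ (show (j : M) ∈ ({i | i ∈ I ∧ (m : M) < i} : Set M) from ⟨j.2, h⟩))
  have hq : ∀ m : I, ∃ q : ℚ, r m < q ∧ (q : ℝ) < r (nx m) := fun m =>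
    exists_rat_btwn (hr m m.2 _ (hnx m).1 (hnx m).2)
  choose q hq1 hq2 using hq
  have hmono : StrictMono q := by
    intro i j hij
    have h1 : nx i ≤ j := hnx' i j hij
    have h2 : r (nx i) ≤ r j := by
      rcases h1.eq_or_lt with h | h
      · rw [h]
      · exact (hr _ (hnx i).1 _ j.2 h).le
    have h3 : (q i : ℝ) < q j := (hq2 i).trans_le (h2.trans (hq1 j).le)
    exact_mod_cast h3
  have h4 : #I ≤ #ℚ := Cardinal.mk_le_of_injective hmono.injective
  rw [Cardinal.mkRat] at h4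
  exact absurd hc (not_lt.mpr h4)

/-- The countable ordinals. -/
abbrev W1 : Type := (ℵ_ 1 : Cardinal.{0}).ord.ToType

theorem mk_W1 : #W1 = ℵ_ 1 := Cardinal.mk_ord_toType _

theorem W1_Iio (i : W1) : #(Iio i) < #W1 := by
  rw [mk_W1]
  exact Cardinal.mk_Iio_toType_ord_lt i

/-- The rank of a point. -/
noncomputable def rk (i : W1) : Ordinal.{0} := Ordinal.typein (α := W1) (· < ·) i

theorem rk_lt (i : W1) : rk i < (ℵ_ 1 : Cardinal.{0}).ord := by
  have := Ordinal.typein_lt_type (α := W1) (· < ·) i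
  rwa [Ordinal.type_toType] at this

theorem rk_mono : StrictMono rk := fun _ _ h => (Ordinal.typein_lt_typein (· < ·)).mpr h

theorem rk_surj {o : Ordinal.{0}} (h : o < (ℵ_ 1 : Cardinal.{0}).ord) : ∃ i, rk i = o := by
  have h' : o < Ordinal.type (α := W1) (· < ·) := by rwa [Ordinal.type_toType]
  exact Ordinal.typein_surj (α := W1) (· < ·) h'

/-- The parameters for `ℵ_ ω₁`. -/
noncomputable def P1 : Par where
  M := W1
  hM := by rw [mk_W1]; exact Cardinal.isRegular_aleph_one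
  hMi := W1_Iio
  κ i := ℵ_ (rk i + 1 + 1)
  κr i := Cardinal.isRegular_aleph_add_one _
  κM i := by
    rw [mk_W1, Cardinal.aleph_lt_aleph]
    have h1 : (1 : Ordinal.{0}) ≤ rk i + 1 := le_add_self
    exact h1.trans_lt (lt_add_one _)
  κm := by
    intro i j h
    show ℵ_ (rk i + 1 + 1) < ℵ_ (rk j + 1 + 1)
    rw [Cardinal.aleph_lt_aleph]
    have h1 := rk_mono h
    have h2 : rk i + 1 < rk j + 1 := Order.succ_lt_succ h1
    exact Order.succ_lt_succ h2

theorem P1_kappa_lt (i : W1) : P1.κ i < ℵ_ (ω_ 1 : Ordinal.{0}) := by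
  show ℵ_ (rk i + 1 + 1) < _
  rw [Cardinal.aleph_lt_aleph]
  have h1 := rk_lt i
  rw [Cardinal.ord_aleph] at h1
  have h2 := isSuccLimit_omega 1
  exact h2.succ_lt (h2.succ_lt h1)

theorem exists_le_kappa {x : Cardinal.{0}} (hx : x < ℵ_ (ω_ 1 : Ordinal.{0})) :
    ∃ i : W1, x ≤ P1.κ i := by
  rw [Cardinal.aleph_limit (isSuccLimit_omega 1)] at hx
  have : Nonempty (Iio (ω_ 1 : Ordinal.{0})) := ⟨⟨0, Ordinal.omega_pos 1⟩⟩
  obtain ⟨⟨o, ho⟩, hxo⟩ := exists_lt_of_lt_ciSup hx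
  obtain ⟨i, hi⟩ := rk_surj (o := o) (by rw [Cardinal.ord_aleph]; exact ho)
  refine ⟨i, hxo.le.trans ?_⟩
  show ℵ_ o ≤ ℵ_ (rk i + 1 + 1)
  rw [Cardinal.aleph_le_aleph, hi]
  exact (Order.le_succ _).trans (Order.le_succ _)

theorem lam_P1 : P1.lam = 2 ^< ℵ_ (ω_ 1 : Ordinal.{0}) := by
  have := P1.nonempty
  apply le_antisymm
  · exact ciSup_le fun i => Cardinal.le_powerlt 2 (P1_kappa_lt i)
  · rw [Cardinal.powerlt_le]
    intro x hx
    obtain ⟨i, hi⟩ := exists_le_kappa hx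
    exact (Cardinal.power_le_power_left two_ne_zero hi).trans (P1.le_lam i)

/-- Sierpinski's colouring of the pairs of countable ordinals. -/
theorem sierpinski : ∃ g : W1 → W1 → Bool, ∀ I : Set W1, (∀ m, ∃ i ∈ I, m < i) →
    ∀ v : Bool, ∃ i ∈ I, ∃ j ∈ I, i < j ∧ g i j ≠ v := by
  classical
  have h1 : #W1 ≤ #ℝ := by
    rw [mk_W1, Cardinal.mk_real]; exact Cardinal.aleph_one_le_continuum
  rw [Cardinal.le_def] at h1
  obtain ⟨r⟩ := h1
  refine ⟨fun i j => decide (r i < r j), ?_⟩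
  intro I hI v
  by_contra hcon
  push Not at hcon
  have hc : ℵ₀ < #I := by
    have h2 : #I = #W1 := Setting.card_of_unb (Q := P1.toSetting) hI
    rw [h2, mk_W1]
    exact Cardinal.aleph0_lt_aleph_one
  cases v with
  | true =>
    refine no_real_order I (fun m _ => hI m) hc r ?_
    intro i hi j hj hij
    exact of_decide_eq_true (hcon i hi j hj hij)
  | false =>
    refine no_real_order I (fun m _ => hI m) hc (fun i => - r i) ?_
    intro i hi j hj hij
    have h3 := of_decide_eq_false (hcon i hi j hj hij)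
    have h4 : r i ≠ r j := fun h => hij.ne (r.injective h)
    have h5 : r j < r i := lt_of_le_of_ne (not_lt.mp h3) h4.symm
    exact neg_lt_neg h5

/-- `2 ^ (2 ^< ℵ_ω₁) ↛ (ℵ_ω₁, 5)⁴`. -/
theorem neg_omega1 : ∃ (α : Type) (c : Finset α → Bool),
    #α = 2 ^ (2 ^< ℵ_ (ω_ 1 : Ordinal.{0})) ∧
    (∀ H : Set α, #H = ℵ_ (ω_ 1 : Ordinal.{0}) →
      ∃ s : Finset α, (s : Set α) ⊆ H ∧ s.card = 4 ∧ c s = true) ∧
    (∀ s : Finset α, s.card = 5 → ∃ t : Finset α, t ⊆ s ∧ t.card = 4 ∧ c t = false) := by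
  obtain ⟨g, hg⟩ := sierpinski
  rw [← lam_P1]
  exact neg4 P1 g hg _ fun i => (P1_kappa_lt i).le

end Pool.Agent.H631R2
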