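import Mathlib
import Pool.Agent.H631R2.NArrow
import Pool.Agent.H631R2.Arith
import Pool.Agent.H631R2.Mk2

set_option autoImplicit false

open Cardinal Set

namespace Pool.Agent.H631R2

open Pool.Agent.Helper292.SP

/-- `ℵₙ`. -/
abbrev NN (n : ℕ) : Type := (ℵ_ (n : Ordinal.{0}) : Cardinal.{0}).ord.ToType

/-- `ℵ_ω`. -/
abbrev KK : Type := (ℵ_ Ordinal.omega0 : Cardinal.{0}).ord.ToType

/-- `2 ^< ℵ_ω`. -/
abbrev LL : Type := ((2 : Cardinal.{0}) ^< ℵ_ Ordinal.omega0).ord.ToType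

/-- `2 ^ (2 ^< ℵ_ω)`. -/
abbrev LA : Type := ((2 : Cardinal.{0}) ^ ((2 : Cardinal.{0}) ^< ℵ_ Ordinal.omega0)).ord.ToType

theorem mk_option_cond {I : Type} {c : Cardinal.{0}} (hc : ℵ₀ ≤ c) (hI : #I ≤ c) :
    #(Option (Cond I)) ≤ c := by
  have h1 : #(Cond I) ≤ c := by
    have hinj : Function.Injective (fun p : Cond I => p.s) := by
      rintro ⟨s, hs⟩ ⟨t, ht⟩ h
      simp only at h
      subst h
      rfl
    refine (Cardinal.mk_le_of_injective hinj).trans ?_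
    have h2 : #(I × Bool) ≤ c := by
      rw [Cardinal.mk_prod, Cardinal.lift_id, Cardinal.lift_id, Cardinal.mk_bool]
      calc #I * 2 ≤ c * c := mul_le_mul' hI ((Cardinal.natCast_lt_aleph0 (n := 2)).le.trans hc)
        _ = c := Cardinal.mul_eq_self hc
    rcases finite_or_infinite (I × Bool) with h | h
    · exact (Cardinal.lt_aleph0_of_finite _).le.trans hc
    · rw [Cardinal.mk_finset_of_infinite]
      exact h2
  rw [Cardinal.mk_option]
  calc #(Cond I) + 1 ≤ c + c := add_le_add h1 (Cardinal.one_lt_aleph0.le.trans hc)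
    _ = c := Cardinal.add_eq_self hc

theorem powLE_of {P : Type} [Preorder P] (hP : CCC P) {A B : Type} {μ : Cardinal.{0}}
    (hμ : ℵ₀ ≤ μ) (hA : #A ≤ μ) (hPc : #(Option P) ≤ 2 ^ μ) (hB : 2 ^ μ ≤ #B) (p : P) :
    p ∈ PowLE P A B := by
  refine hP.powLE (le_trans ?_ hB) p
  have h1 : #(A → ℕ → Option P) = (#(Option P) ^ ℵ₀) ^ #A := by
    simp
  rw [h1]
  calc (#(Option P) ^ ℵ₀) ^ #A ≤ (((2 : Cardinal.{0}) ^ μ) ^ ℵ₀) ^ #A :=
        Cardinal.power_le_power_right (Cardinal.power_le_power_right hPc)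
    _ = 2 ^ (μ * ℵ₀ * #A) := by rw [← Cardinal.power_mul, ← Cardinal.power_mul, mul_assoc]
    _ ≤ 2 ^ μ := by
      apply Cardinal.power_le_power_left two_ne_zero
      calc μ * ℵ₀ * #A ≤ μ * μ * μ := mul_le_mul' (mul_le_mul' le_rfl hμ) hA
        _ = μ := by rw [Cardinal.mul_eq_self hμ, Cardinal.mul_eq_self hμ]

theorem ccc_cond (I : Type) : CCC (Cond I) := fun W hW => Cond.ccc W hW

/-- The parameters for `ℵ_ω`. -/
noncomputable def P0 : Par where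
  M := ℕ
  hM := by rw [Cardinal.mk_nat]; exact Cardinal.isRegular_aleph0
  hMi i := by
    rw [Cardinal.mk_nat]
    exact (Set.finite_Iio i).lt_aleph0
  κ n := Order.succ (ℵ_ (n : Ordinal.{0}))
  κr n := Cardinal.isRegular_succ (Cardinal.aleph0_le_aleph _)
  κM n := by
    rw [Cardinal.mk_nat]
    exact (Cardinal.aleph0_le_aleph _).trans_lt (Order.lt_succ _)
  κm := by
    intro i j h
    show Order.succ (ℵ_ (i : Ordinal.{0})) < Order.succ (ℵ_ (j : Ordinal.{0}))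
    rw [Order.succ_lt_succ_iff, Cardinal.aleph_lt_aleph]
    exact_mod_cast h

theorem succ_aleph_lt (n : ℕ) : Order.succ (ℵ_ (n : Ordinal.{0})) < ℵ_ Ordinal.omega0 := by
  rw [Cardinal.succ_aleph, Cardinal.aleph_lt_aleph]
  exact_mod_cast Ordinal.natCast_lt_omega0 (n + 1)

theorem exists_le_kappa0 {x : Cardinal.{0}} (hx : x < ℵ_ Ordinal.omega0) :
    ∃ n : ℕ, x ≤ ℵ_ (n : Ordinal.{0}) := by
  rw [Cardinal.aleph_limit Ordinal.isSuccLimit_omega0] at hx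
  have : Nonempty (Iio (Ordinal.omega0.{0})) := ⟨⟨0, Ordinal.omega0_pos⟩⟩
  obtain ⟨⟨o, ho⟩, hxo⟩ := exists_lt_of_lt_ciSup hx
  obtain ⟨n, rfl⟩ := Ordinal.lt_omega0.mp ho
  exact ⟨n, hxo.le⟩

theorem lam_P0 : P0.lam = 2 ^< ℵ_ Ordinal.omega0 := by
  have := P0.nonempty
  apply le_antisymm
  · exact ciSup_le fun n => Cardinal.le_powerlt 2 (succ_aleph_lt n)
  · rw [Cardinal.powerlt_le]
    intro x hx
    obtain ⟨n, hn⟩ := exists_le_kappa0 hx
    exact (Cardinal.power_le_power_left two_ne_zero (hn.trans (Order.le_succ _))).trans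
      (P0.le_lam n)

instance : Nonempty KK := by
  rw [← Cardinal.mk_ne_zero_iff, Cardinal.mk_ord_toType]
  exact (Cardinal.aleph0_pos.trans_le (Cardinal.aleph0_le_aleph _)).ne'

theorem exists_KKb (n : ℕ) : ∃ S : Set KK, #S = Order.succ (ℵ_ (n : Ordinal.{0})) := by
  have h1 : Order.succ (ℵ_ (n : Ordinal.{0})) ≤ #(univ : Set KK) := by
    rw [Cardinal.mk_univ, Cardinal.mk_ord_toType]
    exact (succ_aleph_lt n).le
  obtain ⟨S, _, hS⟩ := Cardinal.le_mk_iff_exists_subset.mp h1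
  exact ⟨S, hS⟩

/-- The coordinates. -/
noncomputable def R0 : P0.Coord where
  K := KK
  Kb n := (exists_KKb n).choose
  hKb n := (exists_KKb n).choose_spec

/-- The setting. -/
noncomputable abbrev S0 : Setting := Par.toSetting2 R0

/-- The forcing. -/
abbrev PP : Type := Cond (KK × ℕ)

theorem lt_mk_KK (n : ℕ) : ℵ_ (n : Ordinal.{0}) < #KK := by
  rw [Cardinal.mk_ord_toType]
  exact (Order.lt_succ _).trans (succ_aleph_lt n)

theorem forced3_LL (p : PP) : p ∈ NArrow PP LL KK 4 3 := by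
  have h := forced3 (S := S0) (OrderIso.refl ℕ) (fun n => ℵ_ (n : Ordinal.{0}))
    (fun n => Cardinal.aleph0_le_aleph _) (fun _ => rfl) (K' := KK) lt_mk_KK p
  have h2 : p ∈ NArrow PP (P0.lam.ord.ToType) KK 4 3 := h
  rw [lam_P0] at h2
  exact h2

theorem forced4_LA (p : PP) : p ∈ NArrow PP LA KK 5 4 := by
  obtain ⟨eq⟩ : Nonempty (LA ≃ (P0.lam.ord.ToType → Bool)) := by
    rw [← Cardinal.eq, Cardinal.mk_ord_toType, Cardinal.mk_arrow, Cardinal.mk_ord_toType, lam_P0]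
    simp
  exact forced4 (S := S0) (OrderIso.refl ℕ) (fun n => ℵ_ (n : Ordinal.{0}))
    (fun n => Cardinal.aleph0_le_aleph _) (fun _ => rfl) (Λ := LA) (K' := KK)
    (e := eq) eq.injective lt_mk_KK p

theorem main (h1 : ℵ_ Ordinal.omega0 < (2 : Cardinal.{0}) ^< ℵ_ Ordinal.omega0)
    (h2 : ∀ n : ℕ, (2 : Cardinal.{0}) ^ ((2 : Cardinal.{0}) ^ ℵ_ (n : Ordinal.{0})) <
      2 ^ ((2 : Cardinal.{0}) ^< ℵ_ Ordinal.omega0)) (p : PP) :
    (∀ X Y : Type, ℵ₀ ≤ #X → #X < #Y → p ∈ NoOnto PP X Y) ∧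
    p ∈ IsSupPow PP NN LL ∧ p ∈ IsPow PP LL LA ∧ p ∈ HypOne PP NN KK ∧ p ∈ HypTwo PP NN LL LA ∧
    p ∈ NArrow PP LL KK 4 3 ∧ p ∈ NArrow PP LA KK 5 4 := by
  have hP : CCC PP := ccc_cond _
  have hopt : #(Option PP) ≤ ℵ_ Ordinal.omega0 := by
    refine mk_option_cond (Cardinal.aleph0_le_aleph _) ?_
    rw [Cardinal.mk_prod, Cardinal.lift_id, Cardinal.lift_id, Cardinal.mk_ord_toType,
      Cardinal.mk_nat]
    exact (mul_le_mul' le_rfl (Cardinal.aleph0_le_aleph _)).trans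
      (Cardinal.mul_eq_self (Cardinal.aleph0_le_aleph _)).le
  have hLL : #LL = (2 : Cardinal.{0}) ^< ℵ_ Ordinal.omega0 := Cardinal.mk_ord_toType _
  have hLA : #LA = (2 : Cardinal.{0}) ^ ((2 : Cardinal.{0}) ^< ℵ_ Ordinal.omega0) :=
    Cardinal.mk_ord_toType _
  have hNN : ∀ n, #(NN n) = ℵ_ (n : Ordinal.{0}) := fun n => Cardinal.mk_ord_toType _
  -- below the weak power
  have below : ∀ x : Cardinal.{0}, x < (2 : Cardinal.{0}) ^< ℵ_ Ordinal.omega0 →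
      ∃ n : ℕ, x < 2 ^ ℵ_ (n : Ordinal.{0}) := by
    intro x hx
    by_contra hcon
    push Not at hcon
    refine absurd hx (not_lt.mpr ?_)
    rw [Cardinal.powerlt_le]
    intro y hy
    obtain ⟨n, hn⟩ := exists_le_kappa0 hy
    exact (Cardinal.power_le_power_left two_ne_zero hn).trans (hcon n)
  have hle : ∀ n : ℕ, (2 : Cardinal.{0}) ^ ℵ_ (n : Ordinal.{0}) ≤
      (2 : Cardinal.{0}) ^< ℵ_ Ordinal.omega0 := fun n =>
    Cardinal.le_powerlt 2 ((Order.lt_succ _).trans (succ_aleph_lt n))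
  have hlt : ∀ n : ℕ, (2 : Cardinal.{0}) ^ ℵ_ (n : Ordinal.{0}) <
      (2 : Cardinal.{0}) ^< ℵ_ Ordinal.omega0 := by
    intro n
    by_contra hcon
    push Not at hcon
    exact absurd (h2 n) (not_lt.mpr (Cardinal.power_le_power_left two_ne_zero hcon))
  obtain ⟨m0, hm0⟩ := below _ h1
  have hmax : ∀ n : ℕ, ∃ m : ℕ, n ≤ m ∧ ℵ_ Ordinal.omega0 < (2 : Cardinal.{0}) ^ ℵ_ (m : Ordinal.{0}) := by
    intro n
    refine ⟨max n m0, le_max_left _ _, hm0.trans_le ?_⟩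
    apply Cardinal.power_le_power_left two_ne_zero
    rw [Cardinal.aleph_le_aleph]
    exact_mod_cast le_max_right n m0
  have hNNle : ∀ n m : ℕ, n ≤ m → #(NN n) ≤ ℵ_ (m : Ordinal.{0}) := by
    intro n m h
    rw [hNN, Cardinal.aleph_le_aleph]
    exact_mod_cast h
  have hlamω : ℵ_ Ordinal.omega0 < (2 : Cardinal.{0}) ^ ((2 : Cardinal.{0}) ^< ℵ_ Ordinal.omega0) :=
    h1.trans (Cardinal.cantor _)
  refine ⟨fun X Y hX hXY => hP.noOnto hX hXY p, ⟨?_, ?_⟩, ⟨?_, ?_⟩, ?_, ?_, forced3_LL p,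
    forced4_LA p⟩
  · intro n
    obtain ⟨m, hnm, hm⟩ := hmax n
    exact powLE_of hP (Cardinal.aleph0_le_aleph _) (hNNle n m hnm) (hopt.trans hm.le)
      (hLL ▸ hle m) p
  · intro a
    refine mem_fex.mpr fun q _ => ?_
    have h3 : #(Iio a) < (2 : Cardinal.{0}) ^< ℵ_ Ordinal.omega0 :=
      Cardinal.mk_Iio_toType_ord_lt a
    obtain ⟨n, hn⟩ := below _ h3
    refine ⟨q, le_rfl, n, hP.not_powLE ?_ ?_ q⟩
    · rw [hNN]; exact Cardinal.aleph0_le_aleph _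
    · rw [hNN]; exact hn
  · exact powLE_of hP (μ := #LL) (by rw [hLL]; exact (Cardinal.aleph0_le_aleph _).trans h1.le)
      le_rfl (by rw [hLL]; exact hopt.trans hlamω.le) (by rw [hLL, hLA]) p
  · intro b
    refine hP.not_powLE ?_ ?_ p
    · rw [hLL]; exact (Cardinal.aleph0_le_aleph _).trans h1.le
    · rw [hLL]; exact Cardinal.mk_Iio_toType_ord_lt b
  · refine mem_fex.mpr fun q _ => ⟨q, le_rfl, m0, hP.not_powLE ?_ ?_ q⟩
    · rw [hNN]; exact Cardinal.aleph0_le_aleph _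
    · rw [hNN, Cardinal.mk_ord_toType]; exact hm0
  · intro n
    refine mem_fex.mpr fun q _ => ⟨q, le_rfl, ?_⟩
    obtain ⟨m, hnm, hm⟩ := hmax n
    obtain ⟨a, ⟨ea⟩⟩ := seg (2 ^ ℵ_ (m : Ordinal.{0})) ((2 : Cardinal.{0}) ^< ℵ_ Ordinal.omega0) (hlt m)
    obtain ⟨b, ⟨eb⟩⟩ := seg (2 ^ (2 ^ ℵ_ (m : Ordinal.{0}))) (2 ^ ((2 : Cardinal.{0}) ^< ℵ_ Ordinal.omega0)) (h2 m)
    have ha : #(Iio a) = (2 : Cardinal.{0}) ^ ℵ_ (m : Ordinal.{0}) := by
      rw [← Cardinal.mk_congr ea.toEquiv, Cardinal.mk_ord_toType]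
    have hb : #(Iio b) = (2 : Cardinal.{0}) ^ ((2 : Cardinal.{0}) ^ ℵ_ (m : Ordinal.{0})) := by
      rw [← Cardinal.mk_congr eb.toEquiv, Cardinal.mk_ord_toType]
    refine ⟨a, mem_fex.mpr fun q' _ => ⟨q', le_rfl, b, ?_, ?_⟩⟩
    · exact powLE_of hP (Cardinal.aleph0_le_aleph _) (hNNle n m hnm) (hopt.trans hm.le)
        ha.ge q'
    · exact powLE_of hP ((Cardinal.aleph0_le_aleph _).trans hm.le) ha.le
        (hopt.trans (hm.trans (Cardinal.cantor _)).le) hb.ge q'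

end Pool.Agent.H631R2
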